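import Pool.Agent.K6.H36.WH.One

/-!
# Weighted Hardy inequality: cutoff argument
-/

set_option autoImplicit false

open MeasureTheory Set Filter Topology
open scoped ContDiff

namespace Pool.Agent.K6.H36.WH

variable {n : ℕ}

/-- Euclidean space -/
abbrev En (n : ℕ) := EuclideanSpace ℝ (Fin n)

lemma awn_cont (p : ℝ) : Continuous fun x : En n => aw p ‖x‖ := (aw_cont p).comp continuous_norm

lemma awn_pos (p : ℝ) (x : En n) : 0 < aw p ‖x‖ := aw_pos _ _

/-- cutoff functions -/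
noncomputable def chi (N : ℕ) (x : En n) : ℝ :=
  Real.smoothTransition (2 - ‖x‖ ^ 2 / ((N : ℝ) + 1) ^ 2)

lemma chi_smooth (N : ℕ) : ContDiff ℝ ∞ (chi N : En n → ℝ) := by
  unfold chi
  exact Real.smoothTransition.contDiff.comp
    (contDiff_const.sub ((contDiff_norm_sq ℝ).div_const _))

lemma chi_nonneg (N : ℕ) (x : En n) : 0 ≤ chi N x := Real.smoothTransition.nonneg _

lemma chi_le (N : ℕ) (x : En n) : chi N x ≤ 1 := Real.smoothTransition.le_one _

lemma chi_zero (N : ℕ) (x : En n) (h : 2 * ((N : ℝ) + 1) ^ 2 ≤ ‖x‖ ^ 2) : chi N x = 0 := by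
  unfold chi
  refine Real.smoothTransition.zero_of_nonpos ?_
  have : 2 ≤ ‖x‖ ^ 2 / ((N : ℝ) + 1) ^ 2 := by
    rw [le_div_iff₀ (by positivity)]
    exact h
  linarith

lemma chi_supp (N : ℕ) : HasCompactSupport (chi N : En n → ℝ) := by
  refine HasCompactSupport.intro (isCompact_closedBall (0 : En n) (2 * ((N : ℝ) + 1)))
    fun x hx => ?_
  rw [Metric.mem_closedBall, dist_zero_right, not_le] at hx
  refine chi_zero N x ?_
  have h0 : (0 : ℝ) ≤ (N : ℝ) + 1 := by positivity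
  nlinarith

lemma chi_one (N : ℕ) (x : En n) (h : ‖x‖ ≤ N) : chi N x = 1 := by
  unfold chi
  refine Real.smoothTransition.one_of_one_le ?_
  have : ‖x‖ ^ 2 / ((N : ℝ) + 1) ^ 2 ≤ 1 := by
    rw [div_le_one (by positivity)]
    have := norm_nonneg x
    nlinarith
  linarith

lemma chi_lim (x : En n) : Tendsto (fun N : ℕ => chi N x) atTop (𝓝 1) := by
  obtain ⟨N₀, hN₀⟩ := exists_nat_ge ‖x‖
  refine tendsto_const_nhds.congr' ?_
  filter_upwards [eventually_ge_atTop N₀] with N hN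
  exact (chi_one N x (hN₀.trans (by exact_mod_cast hN))).symm

/-- bound for the derivative of the transition function -/
lemma st_bound : ∃ C : ℝ, 0 ≤ C ∧ ∀ t, |deriv Real.smoothTransition t| ≤ C := by
  have hc : Continuous (deriv Real.smoothTransition) :=
    (Real.smoothTransition.contDiff (n := 1)).continuous_deriv le_rfl
  obtain ⟨C, hC⟩ := (isCompact_Icc (a := (0 : ℝ)) (b := 1)).exists_bound_of_continuousOn
    hc.continuousOn
  refine ⟨max C 0, le_max_right _ _, fun t => ?_⟩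
  by_cases ht : t ∈ Icc (0 : ℝ) 1
  · exact (hC t ht).trans (le_max_left _ _)
  · have hz : deriv Real.smoothTransition t = 0 := by
      rw [mem_Icc, not_and_or, not_le, not_le] at ht
      rcases ht with ht | ht
      · have : Real.smoothTransition =ᶠ[𝓝 t] fun _ => 0 := by
          filter_upwards [Iio_mem_nhds ht] with s hs
          exact Real.smoothTransition.zero_of_nonpos (le_of_lt hs)
        rw [this.deriv_eq]
        simp
      · have : Real.smoothTransition =ᶠ[𝓝 t] fun _ => 1 := by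
          filter_upwards [Ioi_mem_nhds ht] with s hs
          exact Real.smoothTransition.one_of_one_le (le_of_lt hs)
        rw [this.deriv_eq]
        simp
    rw [hz, abs_zero]
    exact le_max_right _ _

lemma st_zero {t : ℝ} (ht : t < 0) : deriv Real.smoothTransition t = 0 := by
  have : Real.smoothTransition =ᶠ[𝓝 t] fun _ => 0 := by
    filter_upwards [Iio_mem_nhds ht] with s hs
    exact Real.smoothTransition.zero_of_nonpos (le_of_lt hs)
  rw [this.deriv_eq]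
  simp

lemma chi_fderiv (N : ℕ) (x : En n) : HasFDerivAt (chi N : En n → ℝ)
    ((-(deriv Real.smoothTransition (2 - ‖x‖ ^ 2 / ((N : ℝ) + 1) ^ 2) *
      (2 / ((N : ℝ) + 1) ^ 2))) • innerSL ℝ x) x := by
  have h1 : HasFDerivAt (fun x : En n => ‖x‖ ^ 2) (2 • innerSL ℝ x) x :=
    (hasStrictFDerivAt_norm_sq x).hasFDerivAt
  have h2 : HasFDerivAt (fun x : En n => 2 - ‖x‖ ^ 2 / ((N : ℝ) + 1) ^ 2)
      (-((((N : ℝ) + 1) ^ 2)⁻¹ • (2 • innerSL ℝ x))) x := by
    have h3 := (h1.const_mul ((((N : ℝ) + 1) ^ 2)⁻¹)).const_sub 2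
    refine h3.congr_of_eventuallyEq (Eventually.of_forall fun y => ?_)
    simp only
    rw [div_eq_inv_mul]
  have h4 : HasDerivAt Real.smoothTransition
      (deriv Real.smoothTransition (2 - ‖x‖ ^ 2 / ((N : ℝ) + 1) ^ 2))
      (2 - ‖x‖ ^ 2 / ((N : ℝ) + 1) ^ 2) :=
    ((Real.smoothTransition.contDiff (n := 1)).differentiable one_ne_zero _).hasDerivAt
  have h5 := h4.comp_hasFDerivAt x h2
  refine h5.congr_fderiv ?_
  ext v
  simp only [ContinuousLinearMap.smul_apply, ContinuousLinearMap.neg_apply, smul_eq_mul, nsmul_eq_mul]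
  push_cast
  ring

/-- bounds for the gradient of the cutoff -/
lemma chi_grad : ∃ C : ℝ, 0 ≤ C ∧ (∀ (N : ℕ) (x : En n),
    (1 + ‖x‖ ^ 2) * ‖fderiv ℝ (chi N : En n → ℝ) x‖ ^ 2 ≤ C) ∧
    ∀ x : En n, Tendsto (fun N : ℕ => ‖fderiv ℝ (chi N : En n → ℝ) x‖) atTop (𝓝 0) := by
  obtain ⟨C, hC0, hC⟩ := st_bound
  have key : ∀ (N : ℕ) (x : En n), ‖fderiv ℝ (chi N : En n → ℝ) x‖ ≤
      C * (2 / ((N : ℝ) + 1) ^ 2) * ‖x‖ := by
    intro N x
    rw [(chi_fderiv N x).fderiv, norm_smul, innerSL_apply_norm, norm_neg, norm_mul,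
      Real.norm_eq_abs, Real.norm_eq_abs]
    have h1 := hC (2 - ‖x‖ ^ 2 / ((N : ℝ) + 1) ^ 2)
    have h2 : |2 / ((N : ℝ) + 1) ^ 2| = 2 / ((N : ℝ) + 1) ^ 2 := abs_of_nonneg (by positivity)
    rw [h2]
    gcongr
  refine ⟨24 * C ^ 2, by positivity, ?_, ?_⟩
  · intro N x
    set R : ℝ := (N : ℝ) + 1 with hR
    have hR1 : 1 ≤ R := by
      have : (0 : ℝ) ≤ N := Nat.cast_nonneg _
      linarith
    by_cases hx : ‖x‖ ^ 2 ≤ 2 * R ^ 2
    · have h1 := key N x
      have h2 : ‖fderiv ℝ (chi N : En n → ℝ) x‖ ^ 2 ≤ (C * (2 / R ^ 2) * ‖x‖) ^ 2 :=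
        pow_le_pow_left₀ (norm_nonneg _) h1 2
      have h3 : 1 + ‖x‖ ^ 2 ≤ 3 * R ^ 2 := by nlinarith
      calc (1 + ‖x‖ ^ 2) * ‖fderiv ℝ (chi N : En n → ℝ) x‖ ^ 2
          ≤ (3 * R ^ 2) * (C * (2 / R ^ 2) * ‖x‖) ^ 2 := by gcongr
        _ = 12 * C ^ 2 * ‖x‖ ^ 2 / R ^ 2 := by field_simp; ring
        _ ≤ 12 * C ^ 2 * (2 * R ^ 2) / R ^ 2 := by gcongr
        _ = 24 * C ^ 2 := by field_simp; ring
    · have : fderiv ℝ (chi N : En n → ℝ) x = 0 := by
        rw [(chi_fderiv N x).fderiv, st_zero, zero_mul, neg_zero, zero_smul]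
        rw [not_le] at hx
        have : 2 < ‖x‖ ^ 2 / R ^ 2 := by
          rw [lt_div_iff₀ (by positivity)]
          exact hx
        linarith
      have h0 : (1 + ‖x‖ ^ 2) * (0 : ℝ) ^ 2 = 0 := by ring
      rw [this, norm_zero, h0]
      positivity
  · intro x
    refine squeeze_zero (fun N => norm_nonneg _) (fun N => key N x) ?_
    have h1 : Tendsto (fun N : ℕ => 1 / ((N : ℝ) + 1)) atTop (𝓝 0) :=
      tendsto_one_div_add_atTop_nhds_zero_nat
    have h2 := ((h1.mul h1).const_mul (C * 2)).mul_const ‖x‖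
    simp only [mul_zero, zero_mul] at h2
    refine h2.congr fun N => ?_
    field_simp

lemma ngrad (u : En n → ℝ) (x : En n) : ‖gradient u x‖ = ‖fderiv ℝ u x‖ := by
  unfold gradient
  exact LinearIsometryEquiv.norm_map _ _

/-- the cut off functions -/
noncomputable def cu (ψ : En n → ℝ) (c : ℕ → ℝ) (N : ℕ) (x : En n) : ℝ := chi N x * (ψ x - c N)

lemma cu_smooth {ψ : En n → ℝ} (hψ : ContDiff ℝ ∞ ψ) (c : ℕ → ℝ) (N : ℕ) :
    ContDiff ℝ ∞ (cu ψ c N) := (chi_smooth N).mul (hψ.sub contDiff_const)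

lemma cu_supp (ψ : En n → ℝ) (c : ℕ → ℝ) (N : ℕ) : HasCompactSupport (cu ψ c N) :=
  (chi_supp N).mul_right

lemma cu_fderiv {ψ : En n → ℝ} (hψ : ContDiff ℝ ∞ ψ) (c : ℕ → ℝ) (N : ℕ) (x : En n) :
    fderiv ℝ (cu ψ c N) x = chi N x • fderiv ℝ ψ x + (ψ x - c N) • fderiv ℝ (chi N) x := by
  have h1 : HasFDerivAt ψ (fderiv ℝ ψ x) x :=
    (hψ.differentiable (by simp) x).hasFDerivAt
  have h2 : HasFDerivAt (chi N : En n → ℝ) (fderiv ℝ (chi N) x) x :=
    ((chi_smooth N).differentiable (by simp) x).hasFDerivAt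
  exact (h2.fun_mul (h1.sub_const (c N))).fderiv

theorem cut_lim {α κ : ℝ} {ψ : En n → ℝ} (hψ : ContDiff ℝ ∞ ψ)
    (hM : Integrable fun x : En n => aw (α - 1) ‖x‖ * ψ x ^ 2)
    (hD : Integrable fun x : En n => aw α ‖x‖ * ‖fderiv ℝ ψ x‖ ^ 2)
    (hκ : Integrable fun x : En n => κ * aw (α - 1) ‖x‖) (hκ0 : 0 ≤ κ) {c : ℕ → ℝ}
    (hc : Tendsto c atTop (𝓝 0)) (hcκ : ∀ᶠ N in atTop, c N ^ 2 ≤ κ) :
    Tendsto (fun N => ∫ x : En n, aw α ‖x‖ * ‖fderiv ℝ (cu ψ c N) x‖ ^ 2) atTop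
      (𝓝 (∫ x : En n, aw α ‖x‖ * ‖fderiv ℝ ψ x‖ ^ 2)) ∧
    Tendsto (fun N => ∫ x : En n, aw (α - 1) ‖x‖ * cu ψ c N x ^ 2) atTop
      (𝓝 (∫ x : En n, aw (α - 1) ‖x‖ * ψ x ^ 2)) := by
  obtain ⟨C, hC0, hC, hlim⟩ := chi_grad (n := n)
  have hlc : ∀ x : En n, Tendsto (fun N => ψ x - c N) atTop (𝓝 (ψ x)) := by
    intro x
    have := (tendsto_const_nhds (x := ψ x)).sub hc
    simpa using this
  constructor
  · refine tendsto_integral_filter_of_dominated_convergence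
      (fun x : En n => 2 * (aw α ‖x‖ * ‖fderiv ℝ ψ x‖ ^ 2) +
        4 * C * (aw (α - 1) ‖x‖ * ψ x ^ 2) + 4 * C * (κ * aw (α - 1) ‖x‖)) ?_ ?_ ?_ ?_
    · refine Eventually.of_forall fun N => ?_
      have : Continuous (fderiv ℝ (cu ψ c N)) := (cu_smooth hψ c N).continuous_fderiv (by simp)
      exact ((awn_cont α).mul (this.norm.pow 2)).aestronglyMeasurable
    · filter_upwards [hcκ] with N hN
      refine Eventually.of_forall fun x => ?_
      rw [Real.norm_of_nonneg (by have := awn_pos α x; positivity)]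
      have h1 : ‖fderiv ℝ (cu ψ c N) x‖ ≤ ‖fderiv ℝ ψ x‖ +
          |ψ x - c N| * ‖fderiv ℝ (chi N : En n → ℝ) x‖ := by
        rw [cu_fderiv hψ]
        refine (norm_add_le _ _).trans ?_
        rw [norm_smul, norm_smul, Real.norm_of_nonneg (chi_nonneg N x), Real.norm_eq_abs]
        have := chi_le N x
        have := chi_nonneg N x
        have := norm_nonneg (fderiv ℝ ψ x)
        nlinarith
      have h2 : ‖fderiv ℝ (cu ψ c N) x‖ ^ 2 ≤ 2 * ‖fderiv ℝ ψ x‖ ^ 2 +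
          2 * ((ψ x - c N) ^ 2 * ‖fderiv ℝ (chi N : En n → ℝ) x‖ ^ 2) := by
        have h3 := pow_le_pow_left₀ (norm_nonneg _) h1 2
        have h4 : (|ψ x - c N| * ‖fderiv ℝ (chi N : En n → ℝ) x‖) ^ 2 =
            (ψ x - c N) ^ 2 * ‖fderiv ℝ (chi N : En n → ℝ) x‖ ^ 2 := by
          rw [mul_pow, sq_abs]
        nlinarith [sq_nonneg (‖fderiv ℝ ψ x‖ - |ψ x - c N| * ‖fderiv ℝ (chi N : En n → ℝ) x‖)]
      have h5 : (ψ x - c N) ^ 2 ≤ 2 * ψ x ^ 2 + 2 * κ := by
        nlinarith [sq_nonneg (ψ x + c N)]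
      have ha : aw α ‖x‖ = aw (α - 1) ‖x‖ * (1 + ‖x‖ ^ 2) := by
        rw [← aw_succ]; congr 1; ring
      have h6 : aw α ‖x‖ * ((ψ x - c N) ^ 2 * ‖fderiv ℝ (chi N : En n → ℝ) x‖ ^ 2) ≤
          aw (α - 1) ‖x‖ * (2 * ψ x ^ 2 + 2 * κ) * C := by
        calc aw α ‖x‖ * ((ψ x - c N) ^ 2 * ‖fderiv ℝ (chi N : En n → ℝ) x‖ ^ 2)
            = aw (α - 1) ‖x‖ * (ψ x - c N) ^ 2 *
              ((1 + ‖x‖ ^ 2) * ‖fderiv ℝ (chi N : En n → ℝ) x‖ ^ 2) := by
              rw [ha]; ring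
          _ ≤ aw (α - 1) ‖x‖ * (2 * ψ x ^ 2 + 2 * κ) * C := by
              have := awn_pos (α - 1) x
              have := hC N x
              gcongr
      have h7 := mul_le_mul_of_nonneg_left h2 (awn_pos α x).le
      nlinarith
    · exact ((hD.const_mul 2).add (hM.const_mul (4 * C))).add (hκ.const_mul (4 * C))
    · refine Eventually.of_forall fun x => ?_
      refine Tendsto.const_mul _ ?_
      have h1 : Tendsto (fun N => fderiv ℝ (cu ψ c N) x) atTop (𝓝 (fderiv ℝ ψ x)) := by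
        have h2 : Tendsto (fun N : ℕ => fderiv ℝ (chi N : En n → ℝ) x) atTop (𝓝 0) :=
          tendsto_zero_iff_norm_tendsto_zero.2 (hlim x)
        have h3 := ((chi_lim x).smul_const (fderiv ℝ ψ x)).add ((hlc x).smul h2)
        simp only [one_smul, smul_zero, add_zero] at h3
        exact h3.congr fun N => (cu_fderiv hψ c N x).symm
      exact (h1.norm.pow 2)
  · refine tendsto_integral_filter_of_dominated_convergence
      (fun x : En n => 2 * (aw (α - 1) ‖x‖ * ψ x ^ 2) + 2 * (κ * aw (α - 1) ‖x‖)) ?_ ?_ ?_ ?_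
    · refine Eventually.of_forall fun N => ?_
      exact ((awn_cont (α - 1)).mul ((cu_smooth hψ c N).continuous.pow 2)).aestronglyMeasurable
    · filter_upwards [hcκ] with N hN
      refine Eventually.of_forall fun x => ?_
      rw [Real.norm_of_nonneg (by have := awn_pos (α - 1) x; positivity)]
      have h5 : (ψ x - c N) ^ 2 ≤ 2 * ψ x ^ 2 + 2 * κ := by
        nlinarith [sq_nonneg (ψ x + c N)]
      have h6 : cu ψ c N x ^ 2 ≤ 2 * ψ x ^ 2 + 2 * κ := by
        unfold cu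
        rw [mul_pow]
        have h7 : chi N x ^ 2 ≤ 1 := pow_le_one₀ (chi_nonneg N x) (chi_le N x)
        nlinarith [sq_nonneg (ψ x - c N), sq_nonneg (chi N x)]
      have h7 := mul_le_mul_of_nonneg_left h6 (awn_pos (α - 1) x).le
      nlinarith
    · exact (hM.const_mul 2).add (hκ.const_mul 2)
    · refine Eventually.of_forall fun x => ?_
      refine Tendsto.const_mul _ ?_
      have h3 := ((chi_lim x).mul (hlc x)).pow 2
      rw [one_mul] at h3
      exact h3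

/-- Passing from compactly supported functions to general ones, unconstrained -/
theorem up_free {α C : ℝ} (hC : ∀ u : En n → ℝ, ContDiff ℝ ∞ u → HasCompactSupport u →
      C * ∫ x : En n, aw (α - 1) ‖x‖ * u x ^ 2 ≤ ∫ x : En n, aw α ‖x‖ * ‖fderiv ℝ u x‖ ^ 2)
    {ψ : En n → ℝ} (hψ : ContDiff ℝ ∞ ψ)
    (hM : Integrable fun x : En n => aw (α - 1) ‖x‖ * ψ x ^ 2)
    (hD : Integrable fun x : En n => aw α ‖x‖ * ‖fderiv ℝ ψ x‖ ^ 2) :
    C * ∫ x : En n, aw (α - 1) ‖x‖ * ψ x ^ 2 ≤ ∫ x : En n, aw α ‖x‖ * ‖fderiv ℝ ψ x‖ ^ 2 := by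
  obtain ⟨h1, h2⟩ := cut_lim (κ := 0) hψ hM hD (by simp) le_rfl (c := fun _ => 0)
    tendsto_const_nhds (by simp)
  exact le_of_tendsto_of_tendsto' (h2.const_mul C) h1 fun N =>
    hC _ (cu_smooth hψ _ N) (cu_supp _ _ N)

/-- Passing from compactly supported functions to general ones, constrained -/
theorem up_con {α C : ℝ} (hC : ∀ u : En n → ℝ, ContDiff ℝ ∞ u → HasCompactSupport u →
      ∫ x : En n, aw (α - 1) ‖x‖ * u x = 0 →
      C * ∫ x : En n, aw (α - 1) ‖x‖ * u x ^ 2 ≤ ∫ x : En n, aw α ‖x‖ * ‖fderiv ℝ u x‖ ^ 2)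
    {ψ : En n → ℝ} (hψ : ContDiff ℝ ∞ ψ)
    (hm : Integrable fun x : En n => aw (α - 1) ‖x‖)
    (hL : Integrable fun x : En n => aw (α - 1) ‖x‖ * ψ x)
    (h0 : ∫ x : En n, aw (α - 1) ‖x‖ * ψ x = 0)
    (hM : Integrable fun x : En n => aw (α - 1) ‖x‖ * ψ x ^ 2)
    (hD : Integrable fun x : En n => aw α ‖x‖ * ‖fderiv ℝ ψ x‖ ^ 2) :
    C * ∫ x : En n, aw (α - 1) ‖x‖ * ψ x ^ 2 ≤ ∫ x : En n, aw α ‖x‖ * ‖fderiv ℝ ψ x‖ ^ 2 := by
  have hmpos : 0 < ∫ x : En n, aw (α - 1) ‖x‖ := by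
    rw [integral_pos_iff_support_of_nonneg (fun x => (awn_pos _ x).le) hm]
    have : Function.support (fun x : En n => aw (α - 1) ‖x‖) = univ := by
      ext x
      simp [(awn_pos (α - 1) x).ne']
    rw [this]
    exact Measure.measure_univ_pos.2 (NeZero.ne _)
  set A : ℕ → ℝ := fun N => ∫ x : En n, aw (α - 1) ‖x‖ * (chi N x * ψ x) with hA
  set B : ℕ → ℝ := fun N => ∫ x : En n, aw (α - 1) ‖x‖ * chi N x with hB
  have hAl : Tendsto A atTop (𝓝 0) := by
    rw [← h0]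
    refine tendsto_integral_of_dominated_convergence (fun x : En n => |aw (α - 1) ‖x‖ * ψ x|)
      (fun N => ?_) hL.abs (fun N => Eventually.of_forall fun x => ?_)
      (Eventually.of_forall fun x => ?_)
    · exact ((awn_cont (α - 1)).mul ((chi_smooth N).continuous.mul
        hψ.continuous)).aestronglyMeasurable
    · rw [Real.norm_eq_abs, abs_mul, abs_mul, abs_mul, abs_of_nonneg (chi_nonneg N x)]
      have := chi_le N x
      have := chi_nonneg N x
      have h1 := mul_nonneg (abs_nonneg (aw (α - 1) ‖x‖)) (abs_nonneg (ψ x))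
      calc |aw (α - 1) ‖x‖| * (chi N x * |ψ x|) = chi N x * (|aw (α - 1) ‖x‖| * |ψ x|) := by ring
        _ ≤ 1 * (|aw (α - 1) ‖x‖| * |ψ x|) := by gcongr
        _ = _ := one_mul _
    · have := ((chi_lim x).mul_const (ψ x)).const_mul (aw (α - 1) ‖x‖)
      rwa [one_mul] at this
  have hBl : Tendsto B atTop (𝓝 (∫ x : En n, aw (α - 1) ‖x‖)) := by
    refine tendsto_integral_of_dominated_convergence (fun x : En n => aw (α - 1) ‖x‖)
      (fun N => ?_) hm (fun N => Eventually.of_forall fun x => ?_)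
      (Eventually.of_forall fun x => ?_)
    · exact ((awn_cont (α - 1)).mul (chi_smooth N).continuous).aestronglyMeasurable
    · rw [Real.norm_of_nonneg (mul_nonneg (awn_pos _ x).le (chi_nonneg N x))]
      have := chi_le N x
      have h1 := (awn_pos (α - 1) x).le
      nlinarith
    · have := (chi_lim x).const_mul (aw (α - 1) ‖x‖)
      rwa [mul_one] at this
  set c : ℕ → ℝ := fun N => A N / B N with hc
  have hcl : Tendsto c atTop (𝓝 0) := by
    have := hAl.div hBl hmpos.ne'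
    rwa [zero_div] at this
  have hc1 : ∀ᶠ N in atTop, c N ^ 2 ≤ 1 := by
    have h1 : Tendsto (fun N => c N ^ 2) atTop (𝓝 (0 ^ 2)) := hcl.pow 2
    have h2 : (0 : ℝ) ^ 2 < 1 := by norm_num
    filter_upwards [h1.eventually (gt_mem_nhds h2)] with N hN
    exact hN.le
  obtain ⟨h1, h2⟩ := cut_lim (κ := 1) hψ hM hD (by simpa using hm) zero_le_one hcl hc1
  have hBpos : ∀ᶠ N in atTop, 0 < B N := hBl.eventually (lt_mem_nhds hmpos)
  refine le_of_tendsto_of_tendsto (h2.const_mul C) h1 ?_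
  filter_upwards [hBpos] with N hN
  refine hC _ (cu_smooth hψ _ N) (cu_supp _ _ N) ?_
  have i1 : Integrable fun x : En n => aw (α - 1) ‖x‖ * (chi N x * ψ x) := by
    refine ((awn_cont (α - 1)).mul ((chi_smooth N).continuous.mul
        hψ.continuous)).integrable_of_hasCompactSupport ?_
    exact ((chi_supp N).mul_right).mul_left
  have i2 : Integrable fun x : En n => aw (α - 1) ‖x‖ * chi N x := by
    refine ((awn_cont (α - 1)).mul (chi_smooth N).continuous).integrable_of_hasCompactSupport ?_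
    exact (chi_supp N).mul_left
  have e1 : (fun x : En n => aw (α - 1) ‖x‖ * cu ψ c N x) = fun x =>
      aw (α - 1) ‖x‖ * (chi N x * ψ x) - c N * (aw (α - 1) ‖x‖ * chi N x) := by
    funext x
    unfold cu
    ring
  rw [e1, integral_sub i1 (i2.const_mul _), integral_const_mul]
  show A N - c N * B N = 0
  simp only [hc]
  field_simp
  ring

end Pool.Agent.K6.H36.WH
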