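import Mathlib

/-!
# Weighted Hardy inequality: definitions
-/

set_option autoImplicit false

open MeasureTheory
open scoped ContDiff

namespace Pool.Agent.K6.H36.WH

/-- The weighted Dirichlet integral of `u`, with weight `(1+|x|²)^α`. -/
noncomputable def num {n : ℕ} (α : ℝ) (u : EuclideanSpace ℝ (Fin n) → ℝ) : ℝ :=
  ∫ x : EuclideanSpace ℝ (Fin n), (1 + ‖x‖ ^ 2) ^ α * ‖gradient u x‖ ^ 2

/-- The integral of `u²` with weight `(1+|x|²)^(α-1)`. -/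
noncomputable def den {n : ℕ} (α : ℝ) (u : EuclideanSpace ℝ (Fin n) → ℝ) : ℝ :=
  ∫ x : EuclideanSpace ℝ (Fin n), (1 + ‖x‖ ^ 2) ^ (α - 1) * u x ^ 2

/-- The class of admissible functions: nonzero test functions, of weighted mean zero when
`α < -(n-2)/2`. -/
def Adm (n : ℕ) (α : ℝ) (u : EuclideanSpace ℝ (Fin n) → ℝ) : Prop :=
  ContDiff ℝ ∞ u ∧ HasCompactSupport u ∧ u ≠ 0 ∧
    (α < -((n - 2) / 2) →
      ∫ x : EuclideanSpace ℝ (Fin n), (1 + ‖x‖ ^ 2) ^ (α - 1) * u x = 0)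

/-- The best constant `C(α,n)`. -/
noncomputable def bestConst (n : ℕ) (α : ℝ) : ℝ :=
  sInf {q : ℝ | ∃ u : EuclideanSpace ℝ (Fin n) → ℝ, Adm n α u ∧ q = num α u / den α u}

end Pool.Agent.K6.H36.WH
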