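import Pool.Agent.Q94.NB.K16
import Pool.Agent.K6.H36.WH.Cut

/-!
# Weighted Hardy inequality: explicit integrals and upper bounds
-/

set_option autoImplicit false

open MeasureTheory Set Filter Topology
open scoped ContDiff

namespace Pool.Agent.K6.H36.WH

variable {n : ℕ}

/-- the integral of `(1+|x|²)^{-p}` -/
noncomputable def JJ (n : ℕ) (p : ℝ) : ℝ := ∫ x : En n, aw (-p) ‖x‖

lemma J_int {p : ℝ} (hp : (n : ℝ) / 2 < p) : Integrable fun x : En n => aw (-p) ‖x‖ := by
  have h := integrable_rpow_neg_one_add_norm_sq (E := En n) (μ := volume) (r := 2 * p)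
    (by rw [finrank_euclideanSpace_fin]; linarith)
  refine h.congr (Eventually.of_forall fun x => ?_)
  unfold aw
  simp only
  congr 1
  ring

lemma J_pos {p : ℝ} (hp : (n : ℝ) / 2 < p) : 0 < JJ n p := by
  unfold JJ
  rw [integral_pos_iff_support_of_nonneg (fun x => (awn_pos _ x).le) (J_int hp)]
  have : Function.support (fun x : En n => aw (-p) ‖x‖) = univ := by
    ext x
    simp [(awn_pos (-p) x).ne']
  rw [this]
  exact Measure.measure_univ_pos.2 (NeZero.ne _)

lemma aw_mono {p q : ℝ} (h : p ≤ q) (r : ℝ) : aw p r ≤ aw q r := by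
  unfold aw
  exact Real.rpow_le_rpow_of_exponent_le (by nlinarith [sq_nonneg r]) h

lemma J_anti {p q : ℝ} (hp : (n : ℝ) / 2 < p) (hpq : p ≤ q) : JJ n q ≤ JJ n p :=
  integral_mono (J_int (hp.trans_le hpq)) (J_int hp) fun x => aw_mono (by linarith) _

lemma J_rec (hn : 1 ≤ n) {p : ℝ} (hp : (n : ℝ) / 2 < p) :
    (2 * p - n) * JJ n p = 2 * p * JJ n (p + 1) := by
  have hp1 : (n : ℝ) / 2 < p + 1 := by linarith
  have e1 : ∫ x : En n, ((n - 2 * p) * aw (-p) ‖x‖ + 2 * p * aw (-(p + 1)) ‖x‖) =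
      (n - 2 * p) * JJ n p + 2 * p * JJ n (p + 1) := by
    rw [integral_add ((J_int hp).const_mul _) ((J_int hp1).const_mul _), integral_const_mul,
      integral_const_mul]
    rfl
  have e2 := Q94.NB.S98.polarR hn (fun r => (n - 2 * p) * aw (-p) r + 2 * p * aw (-(p + 1)) r)
    (fun _ => (1 : ℝ))
  simp only [mul_one] at e2
  rw [e1] at e2
  have e3 : ∫ r in Ioi (0 : ℝ), r ^ (n - 1) *
      ((n - 2 * p) * aw (-p) r + 2 * p * aw (-(p + 1)) r) = 0 := by
    by_cases hi : IntegrableOn (fun r : ℝ => r ^ (n - 1) *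
      ((n - 2 * p) * aw (-p) r + 2 * p * aw (-(p + 1)) r)) (Ioi 0)
    · have hd : ∀ r ∈ Ici (0 : ℝ), HasDerivAt (fun r : ℝ => r ^ n * aw (-p) r)
          (r ^ (n - 1) * ((n - 2 * p) * aw (-p) r + 2 * p * aw (-(p + 1)) r)) r := by
        intro r _
        refine ((hasDerivAt_pow n r).fun_mul (aw_deriv (-p) r)).congr_deriv ?_
        have h1 : aw (-p) r = aw (-p - 1) r * (1 + r ^ 2) := by
          rw [← aw_succ]; congr 1; ring
        have h2 : -(p + 1) = -p - 1 := by ring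
        obtain ⟨m, rfl⟩ : ∃ m, n = m + 1 := ⟨n - 1, by omega⟩
        rw [h2, h1, Nat.add_sub_cancel]
        push_cast
        ring
      have ht : Tendsto (fun r : ℝ => r ^ n * aw (-p) r) atTop (𝓝 0) := by
        have h1 : Tendsto (fun r : ℝ => (1 + r ^ 2) ^ (-(p - n / 2))) atTop (𝓝 0) := by
          refine (tendsto_rpow_neg_atTop (y := p - n / 2) (by linarith)).comp ?_
          refine tendsto_atTop_add_const_left _ _ (tendsto_pow_atTop (by norm_num))
        refine squeeze_zero' ?_ ?_ h1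
        · filter_upwards [eventually_ge_atTop 0] with r hr
          have := aw_pos (-p) r
          positivity
        · filter_upwards [eventually_ge_atTop 0] with r hr
          have h2 : r ^ n ≤ (1 + r ^ 2) ^ ((n : ℝ) / 2) := by
            have h3 : r ≤ (1 + r ^ 2) ^ ((1 : ℝ) / 2) := by
              rw [← Real.sqrt_eq_rpow]
              exact Real.le_sqrt_of_sq_le (by linarith)
            calc r ^ n ≤ ((1 + r ^ 2) ^ ((1 : ℝ) / 2)) ^ n := pow_le_pow_left₀ hr h3 n
              _ = (1 + r ^ 2) ^ ((n : ℝ) / 2) := by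
                rw [← Real.rpow_natCast, ← Real.rpow_mul (by positivity)]
                congr 1
                ring
          calc r ^ n * aw (-p) r ≤ (1 + r ^ 2) ^ ((n : ℝ) / 2) * aw (-p) r :=
                mul_le_mul_of_nonneg_right h2 (aw_pos _ _).le
            _ = (1 + r ^ 2) ^ (-(p - n / 2)) := by
                unfold aw
                rw [← Real.rpow_add (by positivity)]
                congr 1
                ring
      have h5 := integral_Ioi_of_hasDerivAt_of_tendsto' hd hi ht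
      rw [h5]
      have : (0 : ℝ) ^ n = 0 := zero_pow (by omega)
      simp [this]
    · exact integral_undef hi
  rw [e3, zero_mul] at e2
  linarith

/-- power functions -/
noncomputable def phi (s : ℝ) (x : En n) : ℝ := aw (-s) ‖x‖

lemma phi_smooth (s : ℝ) : ContDiff ℝ ∞ (phi s : En n → ℝ) := by
  unfold phi aw
  refine ContDiff.rpow_const_of_ne (contDiff_const.add (contDiff_norm_sq ℝ)) fun x => ?_
  positivity

lemma phi_fderiv (s c : ℝ) (x : En n) : fderiv ℝ (fun x : En n => phi s x - c) x =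
    (-(2 * s) * aw (-s - 1) ‖x‖) • innerSL ℝ x := by
  have h1 : HasFDerivAt (fun x : En n => 1 + ‖x‖ ^ 2) (2 • innerSL ℝ x) x :=
    (hasStrictFDerivAt_norm_sq x).hasFDerivAt.const_add 1
  have h2 : HasDerivAt (fun t : ℝ => t ^ (-s)) (-s * (1 + ‖x‖ ^ 2) ^ (-s - 1)) (1 + ‖x‖ ^ 2) :=
    Real.hasDerivAt_rpow_const (Or.inl (by positivity))
  have h3 := (h2.comp_hasFDerivAt x h1).sub_const c
  refine (h3.congr_fderiv ?_).fderiv
  ext v
  simp only [ContinuousLinearMap.smul_apply, smul_eq_mul, nsmul_eq_mul, aw]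
  push_cast
  ring

lemma phi_num (α s c : ℝ) (x : En n) : aw α ‖x‖ * ‖fderiv ℝ (fun x : En n => phi s x - c) x‖ ^ 2 =
    4 * s ^ 2 * (aw (-(2 * s + 1 - α)) ‖x‖ - aw (-(2 * s + 2 - α)) ‖x‖) := by
  rw [phi_fderiv, norm_smul, innerSL_apply_norm, mul_pow, Real.norm_eq_abs, sq_abs]
  have e1 : aw (-(2 * s + 2 - α)) ‖x‖ = aw α ‖x‖ * aw (-s - 1) ‖x‖ * aw (-s - 1) ‖x‖ := by
    unfold aw
    rw [← Real.rpow_add (by positivity), ← Real.rpow_add (by positivity)]
    congr 1
    ring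
  have e2 : aw (-(2 * s + 1 - α)) ‖x‖ = aw (-(2 * s + 2 - α)) ‖x‖ * (1 + ‖x‖ ^ 2) := by
    rw [← aw_succ]
    congr 1
    ring
  rw [e2, e1]
  ring

lemma phi_den (α s c : ℝ) (x : En n) : aw (α - 1) ‖x‖ * (phi s x - c) ^ 2 =
    aw (-(2 * s + 1 - α)) ‖x‖ - 2 * c * aw (-(s + 1 - α)) ‖x‖ + c ^ 2 * aw (-(1 - α)) ‖x‖ := by
  have e1 : aw (-(2 * s + 1 - α)) ‖x‖ = aw (α - 1) ‖x‖ * aw (-s) ‖x‖ * aw (-s) ‖x‖ := by
    unfold aw
    rw [← Real.rpow_add (by positivity), ← Real.rpow_add (by positivity)]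
    congr 1
    ring
  have e2 : aw (-(s + 1 - α)) ‖x‖ = aw (α - 1) ‖x‖ * aw (-s) ‖x‖ := by
    unfold aw
    rw [← Real.rpow_add (by positivity)]
    congr 1
    ring
  have e3 : aw (-(1 - α)) ‖x‖ = aw (α - 1) ‖x‖ := by
    congr 1
    ring
  rw [e1, e2, e3]
  unfold phi
  ring

/-- Upper bound from power functions, no constraint -/
theorem famA {α C s : ℝ} (hC : ∀ u : En n → ℝ, ContDiff ℝ ∞ u → HasCompactSupport u →
      C * ∫ x : En n, aw (α - 1) ‖x‖ * u x ^ 2 ≤ ∫ x : En n, aw α ‖x‖ * ‖fderiv ℝ u x‖ ^ 2)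
    (hs : (n : ℝ) / 2 < 2 * s + 1 - α) :
    C * JJ n (2 * s + 1 - α) ≤ 4 * s ^ 2 * (JJ n (2 * s + 1 - α) - JJ n (2 * s + 2 - α)) := by
  have hs2 : (n : ℝ) / 2 < 2 * s + 2 - α := by linarith
  have hψ : ContDiff ℝ ∞ (fun x : En n => phi s x - 0) := (phi_smooth s).sub contDiff_const
  have i1 := J_int hs
  have i2 := J_int hs2
  have eM : ∀ x : En n, aw (α - 1) ‖x‖ * (phi s x - 0) ^ 2 = aw (-(2 * s + 1 - α)) ‖x‖ := by
    intro x
    rw [phi_den]
    ring
  have hM : Integrable fun x : En n => aw (α - 1) ‖x‖ * (phi s x - 0) ^ 2 := by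
    simp only [eM]
    exact i1
  have hD : Integrable fun x : En n => aw α ‖x‖ *
      ‖fderiv ℝ (fun x : En n => phi s x - 0) x‖ ^ 2 := by
    simp only [phi_num]
    exact (i1.sub i2).const_mul _
  have h := up_free hC hψ hM hD
  simp only [phi_num, eM] at h
  rw [integral_const_mul, integral_sub i1 i2] at h
  exact h

/-- Upper bound from power functions, with constraint -/
theorem famB {α C s : ℝ} (hC : ∀ u : En n → ℝ, ContDiff ℝ ∞ u → HasCompactSupport u →
      ∫ x : En n, aw (α - 1) ‖x‖ * u x = 0 →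
      C * ∫ x : En n, aw (α - 1) ‖x‖ * u x ^ 2 ≤ ∫ x : En n, aw α ‖x‖ * ‖fderiv ℝ u x‖ ^ 2)
    (h1 : (n : ℝ) / 2 < 1 - α) (h2 : (n : ℝ) / 2 < s + 1 - α)
    (h3 : (n : ℝ) / 2 < 2 * s + 1 - α) :
    C * (JJ n (2 * s + 1 - α) - JJ n (s + 1 - α) ^ 2 / JJ n (1 - α)) ≤
      4 * s ^ 2 * (JJ n (2 * s + 1 - α) - JJ n (2 * s + 2 - α)) := by
  have h4 : (n : ℝ) / 2 < 2 * s + 2 - α := by linarith
  have i0 := J_int h1
  have i1 := J_int h2
  have i2 := J_int h3
  have i3 := J_int h4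
  have hJ := J_pos h1
  set c : ℝ := JJ n (s + 1 - α) / JJ n (1 - α) with hc
  have hψ : ContDiff ℝ ∞ (fun x : En n => phi s x - c) := (phi_smooth s).sub contDiff_const
  have e3 : ∀ x : En n, aw (-(1 - α)) ‖x‖ = aw (α - 1) ‖x‖ := by
    intro x
    congr 1
    ring
  have e2 : ∀ x : En n, aw (α - 1) ‖x‖ * phi s x = aw (-(s + 1 - α)) ‖x‖ := by
    intro x
    unfold phi aw
    rw [← Real.rpow_add (by positivity)]
    congr 1
    ring
  have eL : ∀ x : En n, aw (α - 1) ‖x‖ * (phi s x - c) = aw (-(s + 1 - α)) ‖x‖ -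
      c * aw (-(1 - α)) ‖x‖ := by
    intro x
    rw [← e2, e3]
    ring
  have hm : Integrable fun x : En n => aw (α - 1) ‖x‖ := by
    simp only [e3] at i0
    exact i0
  have hL : Integrable fun x : En n => aw (α - 1) ‖x‖ * (phi s x - c) := by
    simp only [eL]
    exact i1.sub (i0.const_mul _)
  have h0 : ∫ x : En n, aw (α - 1) ‖x‖ * (phi s x - c) = 0 := by
    simp only [eL]
    rw [integral_sub i1 (i0.const_mul _), integral_const_mul]
    show JJ n (s + 1 - α) - c * JJ n (1 - α) = 0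
    rw [hc]
    field_simp
    ring
  have j1 : Integrable fun x : En n => aw (-(2 * s + 1 - α)) ‖x‖ -
      2 * c * aw (-(s + 1 - α)) ‖x‖ := i2.sub (i1.const_mul _)
  have hM : Integrable fun x : En n => aw (α - 1) ‖x‖ * (phi s x - c) ^ 2 := by
    simp only [phi_den]
    exact j1.add (i0.const_mul _)
  have hD : Integrable fun x : En n => aw α ‖x‖ *
      ‖fderiv ℝ (fun x : En n => phi s x - c) x‖ ^ 2 := by
    simp only [phi_num]
    exact (i2.sub i3).const_mul _
  have h := up_con hC hψ hm hL h0 hM hD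
  simp only [phi_num, phi_den] at h
  rw [integral_const_mul, integral_sub i2 i3, integral_add j1 (i0.const_mul _),
    integral_sub i2 (i1.const_mul _), integral_const_mul, integral_const_mul] at h
  have e5 : JJ n (2 * s + 1 - α) - JJ n (s + 1 - α) ^ 2 / JJ n (1 - α) =
      JJ n (2 * s + 1 - α) - 2 * c * JJ n (s + 1 - α) + c ^ 2 * JJ n (1 - α) := by
    rw [hc]
    field_simp
    ring
  rw [e5]
  exact h

end Pool.Agent.K6.H36.WH
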