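import Pool.Agent.K6.H36.WH.Low

/-!
# Weighted Hardy inequality: lower bounds, final form
-/

set_option autoImplicit false

open MeasureTheory Set Filter Topology Metric
open scoped ENNReal

namespace Pool.Agent.K6.H36.WH

open Q94.NB Q94.NB.S98

lemma aw_norm {d : ℕ} (p r : ℝ) (θ : sphere (0 : E d) 1) : aw p ‖r • (θ : E d)‖ = aw p r := by
  unfold aw
  rw [norm_smul, norm_sph, mul_one, Real.norm_eq_abs, sq_abs]

lemma gr_le {d : ℕ} (φ : E d → ℝ) (r : ℝ) (θ : sphere (0 : E d) 1) :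
    gr φ r θ ^ 2 ≤ ‖gradient φ (r • (θ : E d))‖ ^ 2 := by
  rw [← sq_abs]
  refine pow_le_pow_left₀ (abs_nonneg _) ?_ 2
  unfold gr
  refine (abs_real_inner_le_norm _ _).trans ?_
  rw [norm_sph, mul_one]

lemma pos_ae (d : ℕ) (R : ℝ) : ∀ᵐ z ∂(PP d R), 0 < z.1 := by
  have h1 : ∀ᵐ r : ℝ ∂(volume.restrict (Ioo (0 : ℝ) R)), 0 < r := by
    filter_upwards [ae_restrict_mem measurableSet_Ioo] with r hr
    exact hr.1
  exact Measure.quasiMeasurePreserving_fst.ae h1

lemma lin5 {X : Type*} [MeasurableSpace X] {σ : Measure X} [IsFiniteMeasure σ]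
    {T f g fl gl : X → ℝ} (hT : Integrable T σ) (hf : Integrable f σ) (hg : Integrable g σ)
    (hfl : Integrable fl σ) (hgl : Integrable gl σ) (a b c e p q : ℝ) :
    ∫ x, (a * T x + b * f x + c * g x + e + (p * fl x + q * gl x)) ∂σ =
      a * (∫ x, T x ∂σ) + b * (∫ x, f x ∂σ) + c * (∫ x, g x ∂σ) + σ.real univ * e +
        (p * (∫ x, fl x ∂σ) + q * (∫ x, gl x ∂σ)) := by
  have i1 := hT.const_mul a
  have i2 := hf.const_mul b
  have i3 := hg.const_mul c
  have i4 := integrable_const (μ := σ) e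
  have i5 := hfl.const_mul p
  have i6 := hgl.const_mul q
  have j1 : Integrable (fun x => a * T x + b * f x) σ := i1.add i2
  have j2 : Integrable (fun x => a * T x + b * f x + c * g x) σ := j1.add i3
  have j3 : Integrable (fun x => a * T x + b * f x + c * g x + e) σ := j2.add i4
  have j4 : Integrable (fun x => p * fl x + q * gl x) σ := i5.add i6
  rw [integral_add j3 j4, integral_add j2 i4, integral_add j1 i3, integral_add i1 i2,
    integral_add i5 i6]
  simp only [integral_const_mul, integral_const, smul_eq_mul]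

section
variable {k : ℕ} {u : E (k + 3) → ℝ} {R : ℝ}

lemma den_pol (p : ℝ) (hu : ContDiff ℝ 1 u) (hs : ∀ x, R ≤ ‖x‖ → u x = 0) :
    ∫ x, aw p ‖x‖ * u x ^ 2 = ∫ z, aw p z.1 * z.1 ^ (k + 2) * u (z.1 • (z.2 : E (k + 3))) ^ 2
      ∂(PP (k + 3) R) := by
  have hc : Continuous fun x : E (k + 3) => aw p ‖x‖ * u x ^ 2 :=
    ((aw_cont p).comp continuous_norm).mul (hu.continuous.pow 2)
  rw [polC (by omega) (R := R) hc (fun x hx => by simp [hs x hx])]
  refine integral_congr_ae (Eventually.of_forall fun z => ?_)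
  simp only
  rw [aw_norm]
  show z.1 ^ (k + 2) * _ = _
  ring

lemma lin_pol (p : ℝ) (hu : ContDiff ℝ 1 u) (hs : ∀ x, R ≤ ‖x‖ → u x = 0) :
    ∫ x, aw p ‖x‖ * u x = ∫ z, aw p z.1 * z.1 ^ (k + 2) * u (z.1 • (z.2 : E (k + 3)))
      ∂(PP (k + 3) R) := by
  have hc : Continuous fun x : E (k + 3) => aw p ‖x‖ * u x :=
    ((aw_cont p).comp continuous_norm).mul (hu.continuous)
  rw [polC (by omega) (R := R) hc (fun x hx => by simp [hs x hx])]
  refine integral_congr_ae (Eventually.of_forall fun z => ?_)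
  simp only
  rw [aw_norm]
  show z.1 ^ (k + 2) * _ = _
  ring

lemma num_pol (p : ℝ) (hu : ContDiff ℝ 1 u) (hs : ∀ x, R ≤ ‖x‖ → gradient u x = 0) :
    ∫ x, aw p ‖x‖ * ‖gradient u x‖ ^ 2 = ∫ z, aw p z.1 * z.1 ^ (k + 2) *
      ‖gradient u (z.1 • (z.2 : E (k + 3)))‖ ^ 2 ∂(PP (k + 3) R) := by
  have hc : Continuous fun x : E (k + 3) => aw p ‖x‖ * ‖gradient u x‖ ^ 2 :=
    ((aw_cont p).comp continuous_norm).mul ((grad_cont hu).norm.pow 2)
  rw [polC (by omega) (R := R) hc (fun x hx => by simp [hs x hx])]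
  refine integral_congr_ae (Eventually.of_forall fun z => ?_)
  simp only
  rw [aw_norm]
  show z.1 ^ (k + 2) * _ = _
  ring

/-- Lower bound without constraint -/
theorem lowA {α s lam : ℝ} (hR : 0 ≤ R) (h1 : lam ≤ 2 * s * (k + 3))
    (h2 : lam ≤ 2 * s * (k + 3) + 4 * s * (α - 1) - 4 * s ^ 2) (hu : ContDiff ℝ 1 u)
    (hs : ∀ x, R ≤ ‖x‖ → u x = 0) (hg : ∀ x, R ≤ ‖x‖ → gradient u x = 0) :
    lam * ∫ x, aw (α - 1) ‖x‖ * u x ^ 2 ≤ ∫ x, aw α ‖x‖ * ‖gradient u x‖ ^ 2 := by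
  rw [den_pol _ hu hs, num_pol _ hu hg, ← integral_const_mul, ← sub_nonneg]
  have cz : Continuous fun z : ℝ × sphere (0 : E (k + 3)) 1 => z.1 • (z.2 : E (k + 3)) := by
    fun_prop
  have cp : Continuous fun z : ℝ × sphere (0 : E (k + 3)) 1 => z.1 ^ (k + 2) := by fun_prop
  have ca : ∀ p, Continuous fun z : ℝ × sphere (0 : E (k + 3)) 1 => aw p z.1 := fun p =>
    (aw_cont p).comp continuous_fst
  have c1 : Continuous fun z : ℝ × sphere (0 : E (k + 3)) 1 => aw α z.1 * z.1 ^ (k + 2) *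
      ‖gradient u (z.1 • (z.2 : E (k + 3)))‖ ^ 2 :=
    ((ca α).mul cp).mul (((grad_cont hu).comp cz).norm.pow 2)
  have c2 : Continuous fun z : ℝ × sphere (0 : E (k + 3)) 1 => lam * (aw (α - 1) z.1 *
      z.1 ^ (k + 2) * u (z.1 • (z.2 : E (k + 3))) ^ 2) :=
    continuous_const.mul (((ca (α - 1)).mul cp).mul ((hu.continuous.comp cz).pow 2))
  have c3 : Continuous fun z : ℝ × sphere (0 : E (k + 3)) 1 => aw α z.1 * z.1 ^ (k + 2) *
      gr u z.1 z.2 ^ 2 - lam * aw (α - 1) z.1 * z.1 ^ (k + 2) *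
      u (z.1 • (z.2 : E (k + 3))) ^ 2 :=
    (((ca α).mul cp).mul ((gr_cont hu).pow 2)).sub
      (((continuous_const.mul (ca (α - 1))).mul cp).mul ((hu.continuous.comp cz).pow 2))
  rw [← integral_sub (cint c1) (cint c2)]
  have hle : ∫ z, (aw α z.1 * z.1 ^ (k + 2) *
      gr u z.1 z.2 ^ 2 - lam * aw (α - 1) z.1 * z.1 ^ (k + 2) *
      u (z.1 • (z.2 : E (k + 3))) ^ 2) ∂(PP (k + 3) R) ≤ ∫ z, (aw α z.1 * z.1 ^ (k + 2) *
      ‖gradient u (z.1 • (z.2 : E (k + 3)))‖ ^ 2 - lam * (aw (α - 1) z.1 *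
      z.1 ^ (k + 2) * u (z.1 • (z.2 : E (k + 3))) ^ 2)) ∂(PP (k + 3) R) := by
    refine integral_mono_ae (cint c3) ((cint c1).sub (cint c2)) ?_
    filter_upwards [pos_ae (k + 3) R] with z hz
    have h3 := gr_le u z.1 z.2
    have h4 : 0 ≤ aw α z.1 * z.1 ^ (k + 2) := by
      have := aw_pos α z.1
      positivity
    have h5 := mul_le_mul_of_nonneg_left h3 h4
    nlinarith
  refine le_trans ?_ hle
  rw [fubR hR c3]
  refine integral_nonneg fun θ => ?_
  exact ray hR h1 h2 (f := fun r => u (r • (θ : E (k + 3)))) (f' := fun r => gr u r θ)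
    (fun r => uf_deriv hu θ r) ((gr_cont hu).comp (by fun_prop : Continuous fun r : ℝ => (r, θ)))
    (hs _ (by rw [norm_smul, norm_sph, mul_one]; exact le_abs_self R))

/-- Lower bound with constraint -/
theorem lowB {α B lam : ℝ} (hR : 0 ≤ R) (hlam : 0 ≤ lam)
    (h1 : lam ≤ (k + 3) ^ 2 + 2 * (k + 3) * α - (k + 5) * B)
    (h2 : lam ≤ B * (k + 1 + 2 * α - B)) (h3 : lam ≤ -2 * α) (hu : ContDiff ℝ 1 u)
    (hs : ∀ x, R ≤ ‖x‖ → u x = 0) (hg : ∀ x, R ≤ ‖x‖ → gradient u x = 0)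
    (h0 : ∫ x, aw (α - 1) ‖x‖ * u x = 0) :
    lam * ∫ x, aw (α - 1) ‖x‖ * u x ^ 2 ≤ ∫ x, aw α ‖x‖ * ‖gradient u x‖ ^ 2 := by
  rw [den_pol _ hu hs, num_pol _ hu hg, ← integral_const_mul, ← sub_nonneg]
  set S : ℝ := (sg (k + 3)).real univ with hS
  have hSpos : 0 < S := by
    have : Nontrivial (E (k + 3)) := by
      have : Nonempty (Fin (k + 3)) := ⟨⟨0, by omega⟩⟩
      infer_instance
    simp only [hS]
    rw [measureReal_def]
    refine ENNReal.toReal_pos ?_ (measure_ne_top _ _)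
    rw [Measure.measure_univ_ne_zero]
    exact Measure.toSphere_ne_zero _
  have iu : ∀ r : ℝ, Integrable (fun θ : sphere (0 : E (k + 3)) 1 => u (r • (θ : E (k + 3))))
      (sg (k + 3)) := fun r => sph_int _ (hu.continuous.comp (by fun_prop))
  have ig : ∀ r : ℝ, Integrable (fun θ : sphere (0 : E (k + 3)) 1 => gr u r θ) (sg (k + 3)) :=
    fun r => sph_int _ ((gr_cont hu).comp
      (by fun_prop : Continuous fun θ : sphere (0 : E (k + 3)) 1 => (r, θ)))
  have hmn : ∀ r, ∫ θ, u (r • (θ : E (k + 3))) ∂(sg (k + 3)) = S * mn u r := by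
    intro r
    rw [mn, ← hS]
    field_simp
  have hmn' : ∀ r, ∫ θ, gr u r θ ∂(sg (k + 3)) = S * mn' u r := by
    intro r
    rw [mn', ← hS]
    field_simp
  have mnc : Continuous (mn u) :=
    continuous_iff_continuousAt.2 fun r => (mn_deriv hu r).continuousAt
  have hvR : ∀ θ : sphere (0 : E (k + 3)) 1, u (R • (θ : E (k + 3))) = 0 := fun θ =>
    hs _ (by rw [norm_smul, norm_sph, mul_one]; exact le_abs_self R)
  have hmR : mn u R = 0 := by
    have := hmn R
    simp only [hvR, integral_zero] at this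
    rcases mul_eq_zero.1 this.symm with h | h
    · exact absurd h hSpos.ne'
    · exact h
  set hh : ℝ → sphere (0 : E (k + 3)) 1 → ℝ := fun r θ => u (r • (θ : E (k + 3))) - mn u r with hhh
  set hh' : ℝ → sphere (0 : E (k + 3)) 1 → ℝ := fun r θ => gr u r θ - mn' u r with hhh'
  have cz : Continuous fun z : ℝ × sphere (0 : E (k + 3)) 1 => z.1 • (z.2 : E (k + 3)) := by
    fun_prop
  have hhc : Continuous (fun z : ℝ × sphere (0 : E (k + 3)) 1 => hh z.1 z.2) :=
    (hu.continuous.comp cz).sub (mnc.comp continuous_fst)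
  have hh'c : Continuous (fun z : ℝ × sphere (0 : E (k + 3)) 1 => hh' z.1 z.2) :=
    (gr_cont hu).sub ((mn'_cont hu).comp continuous_fst)
  have zero1 : ∀ r, ∫ θ, hh r θ ∂(sg (k + 3)) = 0 := by
    intro r
    simp only [hhh]
    rw [integral_sub (iu r) (integrable_const _), hmn, integral_const, smul_eq_mul, ← hS]
    ring
  have zero2 : ∀ r, ∫ θ, hh' r θ ∂(sg (k + 3)) = 0 := by
    intro r
    simp only [hhh']
    rw [integral_sub (ig r) (integrable_const _), hmn', integral_const, smul_eq_mul, ← hS]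
    ring
  have ihh : ∀ r, Integrable (fun θ => hh r θ) (sg (k + 3)) := fun r =>
    (iu r).sub (integrable_const _)
  have ihh' : ∀ r, Integrable (fun θ => hh' r θ) (sg (k + 3)) := fun r =>
    (ig r).sub (integrable_const _)
  have ihh2 : ∀ r, Integrable (fun θ => hh r θ ^ 2) (sg (k + 3)) := fun r =>
    sph_int _ ((hhc.comp (by fun_prop :
      Continuous fun θ : sphere (0 : E (k + 3)) 1 => (r, θ))).pow 2)
  have ihh'2 : ∀ r, Integrable (fun θ => hh' r θ ^ 2) (sg (k + 3)) := fun r =>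
    sph_int _ ((hh'c.comp (by fun_prop :
      Continuous fun θ : sphere (0 : E (k + 3)) 1 => (r, θ))).pow 2)
  have cp : Continuous fun z : ℝ × sphere (0 : E (k + 3)) 1 => z.1 ^ (k + 2) := by fun_prop
  have cp0 : Continuous fun z : ℝ × sphere (0 : E (k + 3)) 1 => z.1 ^ k := by fun_prop
  have ca : ∀ p, Continuous fun z : ℝ × sphere (0 : E (k + 3)) 1 => aw p z.1 := fun p =>
    (aw_cont p).comp continuous_fst
  have c1 : Continuous fun z : ℝ × sphere (0 : E (k + 3)) 1 => aw α z.1 * z.1 ^ (k + 2) *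
      ‖gradient u (z.1 • (z.2 : E (k + 3)))‖ ^ 2 :=
    ((ca α).mul cp).mul (((grad_cont hu).comp cz).norm.pow 2)
  have c2 : Continuous fun z : ℝ × sphere (0 : E (k + 3)) 1 => lam * (aw (α - 1) z.1 *
      z.1 ^ (k + 2) * u (z.1 • (z.2 : E (k + 3))) ^ 2) :=
    continuous_const.mul (((ca (α - 1)).mul cp).mul ((hu.continuous.comp cz).pow 2))
  rw [← integral_sub (cint c1) (cint c2)]
  -- comparison function
  set b : ℝ × sphere (0 : E (k + 3)) 1 → ℝ := fun z =>
    (aw α z.1 * (z.1 ^ (k + 2) * hh' z.1 z.2 ^ 2 + (k + 2) * z.1 ^ k * hh z.1 z.2 ^ 2) +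
      2 * α * aw (α - 1) z.1 * z.1 ^ (k + 2) * hh z.1 z.2 ^ 2) +
    (aw α z.1 * z.1 ^ (k + 2) * mn' u z.1 ^ 2 -
      lam * aw (α - 1) z.1 * z.1 ^ (k + 2) * mn u z.1 ^ 2) with hb
  have cb1 : Continuous fun z : ℝ × sphere (0 : E (k + 3)) 1 =>
      aw α z.1 * (z.1 ^ (k + 2) * hh' z.1 z.2 ^ 2 + (k + 2) * z.1 ^ k * hh z.1 z.2 ^ 2) +
      2 * α * aw (α - 1) z.1 * z.1 ^ (k + 2) * hh z.1 z.2 ^ 2 :=
    ((ca α).mul ((cp.mul (hh'c.pow 2)).add ((continuous_const.mul cp0).mul (hhc.pow 2)))).add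
      (((continuous_const.mul (ca (α - 1))).mul cp).mul (hhc.pow 2))
  have cb2 : Continuous fun r : ℝ => aw α r * r ^ (k + 2) * mn' u r ^ 2 -
      lam * aw (α - 1) r * r ^ (k + 2) * mn u r ^ 2 :=
    (((aw_cont α).mul (continuous_pow _)).mul ((mn'_cont hu).pow 2)).sub
      (((continuous_const.mul (aw_cont _)).mul (continuous_pow _)).mul (mnc.pow 2))
  have cb : Continuous b := cb1.add (cb2.comp continuous_fst)
  have hG : ∫ r in (0 : ℝ)..R, aw (α - 1) r * r ^ (k + 2) * mn u r = 0 := by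
    have c0 : Continuous fun z : ℝ × sphere (0 : E (k + 3)) 1 => aw (α - 1) z.1 *
        z.1 ^ (k + 2) * u (z.1 • (z.2 : E (k + 3))) :=
      ((ca _).mul cp).mul (hu.continuous.comp cz)
    rw [lin_pol _ hu hs, fubL hR c0] at h0
    have e1 : ∀ r : ℝ, ∫ θ, aw (α - 1) r * r ^ (k + 2) * u (r • (θ : E (k + 3))) ∂(sg (k + 3))
        = S * (aw (α - 1) r * r ^ (k + 2) * mn u r) := by
      intro r
      rw [integral_const_mul, hmn]
      ring
    simp only [e1] at h0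
    rw [intervalIntegral.integral_const_mul] at h0
    rcases mul_eq_zero.1 h0 with h | h
    · exact absurd h hSpos.ne'
    · exact h
  have hbn : 0 ≤ ∫ z, b z ∂(PP (k + 3) R) := by
    rw [fubR hR cb]
    refine integral_nonneg fun θ => ?_
    have o1 := osc (k := k) (α := α) hR (f := fun r => hh r θ) (f' := fun r => hh' r θ)
      (fun r => (uf_deriv hu θ r).sub (mn_deriv hu r))
      (hh'c.comp (by fun_prop : Continuous fun r : ℝ => (r, θ)))
      (by simp only [hhh, hvR, hmR, sub_zero])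
    have o2 := rad (k := k) (α := α) (lam := lam) (B := B) hR hlam h1 h2 (mn_deriv hu)
      (mn'_cont hu) hmR hG
    have c5 : Continuous fun r : ℝ =>
      aw α r * (r ^ (k + 2) * hh' r θ ^ 2 + (k + 2) * r ^ k * hh r θ ^ 2) +
      2 * α * aw (α - 1) r * r ^ (k + 2) * hh r θ ^ 2 :=
      cb1.comp (by fun_prop : Continuous fun r : ℝ => (r, θ))
    simp only [hb]
    rw [intervalIntegral.integral_add (c5.intervalIntegrable _ _) (cb2.intervalIntegrable _ _)]
    exact add_nonneg o1 o2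
  refine hbn.trans ?_
  have c12 : Continuous fun z : ℝ × sphere (0 : E (k + 3)) 1 => aw α z.1 * z.1 ^ (k + 2) *
      ‖gradient u (z.1 • (z.2 : E (k + 3)))‖ ^ 2 - lam * (aw (α - 1) z.1 *
      z.1 ^ (k + 2) * u (z.1 • (z.2 : E (k + 3))) ^ 2) := c1.sub c2
  rw [fubL hR cb, fubL hR c12]
  have cc1 : Continuous fun r : ℝ => ∫ θ, b (r, θ) ∂(sg (k + 3)) := by
    have h := continuous_parametric_integral_of_continuous (μ := sg (k + 3))
      (f := fun r θ => b (r, θ)) cb (s := univ) isCompact_univ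
    simpa only [Measure.restrict_univ] using h
  have cc2 : Continuous fun r : ℝ => ∫ θ : sphere (0 : E (k + 3)) 1, (aw α r * r ^ (k + 2) *
      ‖gradient u (r • (θ : E (k + 3)))‖ ^ 2 - lam * (aw (α - 1) r *
      r ^ (k + 2) * u (r • (θ : E (k + 3))) ^ 2)) ∂(sg (k + 3)) := by
    have h := continuous_parametric_integral_of_continuous (μ := sg (k + 3))
      (f := fun r (θ : sphere (0 : E (k + 3)) 1) => (aw α r * r ^ (k + 2) *
      ‖gradient u (r • (θ : E (k + 3)))‖ ^ 2 - lam * (aw (α - 1) r *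
      r ^ (k + 2) * u (r • (θ : E (k + 3))) ^ 2))) c12 (s := univ) isCompact_univ
    simpa only [Measure.restrict_univ] using h
  refine intervalIntegral.integral_mono_on_of_le_Ioo hR (cc1.intervalIntegrable _ _)
    (cc2.intervalIntegrable _ _) fun r hr => ?_
  have hr0 : 0 < r := hr.1
  have iT : Integrable (fun θ : sphere (0 : E (k + 3)) 1 =>
      ‖gradient u (r • (θ : E (k + 3)))‖ ^ 2 - gr u r θ ^ 2) (sg (k + 3)) := by
    refine sph_int _ ?_
    have a1 : Continuous fun θ : sphere (0 : E (k + 3)) 1 => ‖gradient u (r • (θ : E (k + 3)))‖ :=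
      ((grad_cont hu).comp (by fun_prop)).norm
    exact (a1.pow 2).sub (((gr_cont hu).comp
      (by fun_prop : Continuous fun θ : sphere (0 : E (k + 3)) 1 => (r, θ))).pow 2)
  have sP := s4 (s2 s1) s3 (k + 3) u r (by omega) hu hr0
  have hd : (((k + 3 : ℕ) : ℝ) - 1) = k + 2 := by push_cast; ring
  rw [hd] at sP
  -- left side
  have L : ∫ θ, b (r, θ) ∂(sg (k + 3)) = aw α r * r ^ (k + 2) * (∫ θ, hh' r θ ^ 2 ∂(sg (k + 3))) +
      (aw α r * ((k + 2) * r ^ k) + 2 * α * aw (α - 1) r * r ^ (k + 2)) *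
        (∫ θ, hh r θ ^ 2 ∂(sg (k + 3))) + S * (aw α r * r ^ (k + 2) * mn' u r ^ 2 -
      lam * aw (α - 1) r * r ^ (k + 2) * mn u r ^ 2) := by
    have e2 := lin5 iT (ihh'2 r) (ihh2 r) (ihh' r) (ihh r) 0 (aw α r * r ^ (k + 2))
      (aw α r * ((k + 2) * r ^ k) + 2 * α * aw (α - 1) r * r ^ (k + 2))
      (aw α r * r ^ (k + 2) * mn' u r ^ 2 - lam * aw (α - 1) r * r ^ (k + 2) * mn u r ^ 2) 0 0
    rw [← hS] at e2
    simp only [zero_mul, zero_add, add_zero] at e2
    rw [← e2]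
    refine integral_congr_ae (Eventually.of_forall fun θ => ?_)
    simp only [hb]
    ring
  have Rr : ∫ θ : sphere (0 : E (k + 3)) 1, (aw α r * r ^ (k + 2) *
      ‖gradient u (r • (θ : E (k + 3)))‖ ^ 2 - lam * (aw (α - 1) r *
      r ^ (k + 2) * u (r • (θ : E (k + 3))) ^ 2)) ∂(sg (k + 3)) =
      aw α r * r ^ (k + 2) * (∫ θ : sphere (0 : E (k + 3)) 1,
        (‖gradient u (r • (θ : E (k + 3)))‖ ^ 2 - gr u r θ ^ 2) ∂(sg (k + 3))) +
      aw α r * r ^ (k + 2) * (∫ θ, hh' r θ ^ 2 ∂(sg (k + 3))) +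
      (-(lam * aw (α - 1) r * r ^ (k + 2))) * (∫ θ, hh r θ ^ 2 ∂(sg (k + 3))) +
      S * (aw α r * r ^ (k + 2) * mn' u r ^ 2 -
      lam * aw (α - 1) r * r ^ (k + 2) * mn u r ^ 2) := by
    have e2 := lin5 iT (ihh'2 r) (ihh2 r) (ihh' r) (ihh r) (aw α r * r ^ (k + 2))
      (aw α r * r ^ (k + 2)) (-(lam * aw (α - 1) r * r ^ (k + 2)))
      (aw α r * r ^ (k + 2) * mn' u r ^ 2 - lam * aw (α - 1) r * r ^ (k + 2) * mn u r ^ 2)
      (2 * aw α r * r ^ (k + 2) * mn' u r) (-(2 * lam * aw (α - 1) r * r ^ (k + 2) * mn u r))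
    rw [← hS, zero1, zero2, mul_zero, mul_zero, add_zero, add_zero] at e2
    rw [← e2]
    refine integral_congr_ae (Eventually.of_forall fun θ => ?_)
    simp only [hhh, hhh']
    ring
  rw [L, Rr]
  set I1 := ∫ θ, hh r θ ^ 2 ∂(sg (k + 3)) with hI1
  set I2 := ∫ θ : sphere (0 : E (k + 3)) 1,
        (‖gradient u (r • (θ : E (k + 3)))‖ ^ 2 - gr u r θ ^ 2) ∂(sg (k + 3)) with hI2
  have sP' : I1 ≤ r ^ 2 / (k + 2) * I2 := sP
  have hI1n : 0 ≤ I1 := integral_nonneg fun θ => sq_nonneg _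
  have t1 : aw α r * ((k + 2) * r ^ k) * I1 ≤ aw α r * r ^ (k + 2) * I2 := by
    have h6 : 0 ≤ aw α r * ((k + 2) * r ^ k) := by
      have := aw_pos α r
      positivity
    refine (mul_le_mul_of_nonneg_left sP' h6).trans (le_of_eq ?_)
    have h8 : (k : ℝ) + 2 ≠ 0 := by positivity
    field_simp
    ring
  have t2 : 0 ≤ (-2 * α - lam) * (aw (α - 1) r * r ^ (k + 2) * I1) := by
    have := aw_pos (α - 1) r
    have h7 : 0 ≤ -2 * α - lam := by linarith
    positivity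
  nlinarith

end

end Pool.Agent.K6.H36.WH
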