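import Pool.Agent.K6.H36.WH.Defs
import Pool.Agent.K6.H36.WH.JJ
import Pool.Agent.K6.H36.WH.LowA

/-!
# Weighted Hardy inequality: the best constant
-/

set_option autoImplicit false

open MeasureTheory Set Filter Topology
open scoped ContDiff

namespace Pool.Agent.K6.H36.WH

variable {n : ℕ}

lemma num_eq (α : ℝ) (u : En n → ℝ) :
    num α u = ∫ x : En n, aw α ‖x‖ * ‖fderiv ℝ u x‖ ^ 2 := by
  unfold num
  simp only [ngrad]
  rfl

lemma den_eq (α : ℝ) (u : En n → ℝ) : den α u = ∫ x : En n, aw (α - 1) ‖x‖ * u x ^ 2 := rfl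

lemma num_nonneg (α : ℝ) (u : En n → ℝ) : 0 ≤ num α u := by
  unfold num
  exact integral_nonneg fun x => by positivity

lemma den_pos {α : ℝ} {u : En n → ℝ} (hu : ContDiff ℝ ∞ u) (hc : HasCompactSupport u)
    (h0 : u ≠ 0) : 0 < den α u := by
  rw [den_eq]
  have hcont : Continuous fun x : En n => aw (α - 1) ‖x‖ * u x ^ 2 :=
    (awn_cont _).mul (hu.continuous.pow 2)
  obtain ⟨x, hx⟩ : ∃ x, u x ≠ 0 := by
    by_contra hcon
    push Not at hcon
    exact h0 (funext hcon)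
  refine hcont.integral_pos_of_hasCompactSupport_nonneg_nonzero ?_ (x := x) ?_ ?_
  · exact (hc.comp_left (g := fun t : ℝ => t ^ 2) (by simp)).mul_left
  · intro x
    have := awn_pos (α - 1) x
    positivity
  · have := awn_pos (α - 1) x
    positivity

lemma adm_exists (hn : 1 ≤ n) (α : ℝ) : ∃ u : En n → ℝ, Adm n α u := by
  set i : Fin n := ⟨0, hn⟩
  refine ⟨fun x => chi 1 x * x i, (chi_smooth 1).mul ?_, (chi_supp 1).mul_right, ?_, fun _ => ?_⟩
  · exact (EuclideanSpace.proj (𝕜 := ℝ) i).contDiff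
  · intro h
    have := congrFun h (EuclideanSpace.single i 1)
    rw [chi_one 1 _ (by simp)] at this
    simp at this
  · have h := integral_neg_eq_self (fun x : En n => (1 + ‖x‖ ^ 2) ^ (α - 1) * (chi 1 x * x i))
      volume
    have h2 : ∀ x : En n, (1 + ‖-x‖ ^ 2) ^ (α - 1) * (chi 1 (-x) * (-x) i) =
        -((1 + ‖x‖ ^ 2) ^ (α - 1) * (chi 1 x * x i)) := by
      intro x
      have : chi 1 (-x) = chi 1 x := by
        unfold chi
        rw [norm_neg]
      rw [this, norm_neg]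
      simp
    simp only [h2] at h
    rw [integral_neg] at h
    linarith

lemma best_bdd (n : ℕ) (α : ℝ) :
    BddBelow {q : ℝ | ∃ u : En n → ℝ, Adm n α u ∧ q = num α u / den α u} := by
  refine ⟨0, ?_⟩
  rintro q ⟨u, hu, rfl⟩
  exact div_nonneg (num_nonneg _ _) (den_pos hu.1 hu.2.1 hu.2.2.1).le

lemma best_le {α : ℝ} {u : En n → ℝ} (hu : Adm n α u) :
    bestConst n α * den α u ≤ num α u := by
  have h1 : bestConst n α ≤ num α u / den α u := csInf_le (best_bdd n α) ⟨u, hu, rfl⟩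
  rwa [le_div_iff₀ (den_pos hu.1 hu.2.1 hu.2.2.1)] at h1

lemma le_best (hn : 1 ≤ n) {α c : ℝ} (h : ∀ u : En n → ℝ, Adm n α u → c * den α u ≤ num α u) :
    c ≤ bestConst n α := by
  obtain ⟨u, hu⟩ := adm_exists hn α
  refine le_csInf ⟨_, u, hu, rfl⟩ ?_
  rintro q ⟨v, hv, rfl⟩
  rw [le_div_iff₀ (den_pos hv.1 hv.2.1 hv.2.2.1)]
  exact h v hv

lemma zero_case {α C : ℝ} {u : En n → ℝ} (h : u = 0) :
    C * ∫ x : En n, aw (α - 1) ‖x‖ * u x ^ 2 ≤ ∫ x : En n, aw α ‖x‖ * ‖fderiv ℝ u x‖ ^ 2 := by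
  subst h
  simp

lemma best_free {α : ℝ} (hα : -(((n : ℝ) - 2) / 2) ≤ α) : ∀ u : En n → ℝ, ContDiff ℝ ∞ u →
    HasCompactSupport u → bestConst n α * ∫ x : En n, aw (α - 1) ‖x‖ * u x ^ 2 ≤
      ∫ x : En n, aw α ‖x‖ * ‖fderiv ℝ u x‖ ^ 2 := by
  intro u hu hc
  by_cases h : u = 0
  · exact zero_case h
  · have := best_le (n := n) (α := α) (u := u) ⟨hu, hc, h, fun h' => absurd h' (not_lt.2 hα)⟩
    rwa [num_eq] at this

lemma best_con {α : ℝ} : ∀ u : En n → ℝ, ContDiff ℝ ∞ u →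
    HasCompactSupport u → ∫ x : En n, aw (α - 1) ‖x‖ * u x = 0 →
    bestConst n α * ∫ x : En n, aw (α - 1) ‖x‖ * u x ^ 2 ≤
      ∫ x : En n, aw α ‖x‖ * ‖fderiv ℝ u x‖ ^ 2 := by
  intro u hu hc h0
  by_cases h : u = 0
  · exact zero_case h
  · have := best_le (n := n) (α := α) (u := u) ⟨hu, hc, h, fun _ => h0⟩
    rwa [num_eq] at this

lemma supp_bound {u : En n → ℝ} (hu : HasCompactSupport u) : ∃ R : ℝ, 0 ≤ R ∧
    (∀ x, R ≤ ‖x‖ → u x = 0) ∧ ∀ x, R ≤ ‖x‖ → gradient u x = 0 := by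
  obtain ⟨R0, hR0⟩ := hu.isCompact.isBounded.subset_closedBall (0 : En n)
  refine ⟨max R0 0 + 1, by positivity, ?_, ?_⟩
  all_goals
    intro x hx
    have hx' : x ∉ tsupport u := by
      intro h
      have h1 := hR0 h
      rw [Metric.mem_closedBall, dist_zero_right] at h1
      have := le_max_left R0 0
      linarith
  · exact image_eq_zero_of_notMem_tsupport hx'
  · unfold gradient
    rw [fderiv_of_notMem_tsupport ℝ hx']
    simp

theorem low_free {k : ℕ} {α s lam : ℝ} (h1 : lam ≤ 2 * s * (k + 3))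
    (h2 : lam ≤ 2 * s * (k + 3) + 4 * s * (α - 1) - 4 * s ^ 2) : lam ≤ bestConst (k + 3) α := by
  refine le_best (by omega) fun u hu => ?_
  obtain ⟨R, hR, hs, hg⟩ := supp_bound hu.2.1
  exact lowA hR h1 h2 (hu.1.of_le (by exact_mod_cast le_top)) hs hg

theorem low_con {k : ℕ} {α B lam : ℝ} (hα : α < -((((k + 3 : ℕ) : ℝ) - 2) / 2)) (hlam : 0 ≤ lam)
    (h1 : lam ≤ (k + 3) ^ 2 + 2 * (k + 3) * α - (k + 5) * B)
    (h2 : lam ≤ B * (k + 1 + 2 * α - B)) (h3 : lam ≤ -2 * α) : lam ≤ bestConst (k + 3) α := by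
  refine le_best (by omega) fun u hu => ?_
  obtain ⟨R, hR, hs, hg⟩ := supp_bound hu.2.1
  exact lowB hR hlam h1 h2 h3 (hu.1.of_le (by exact_mod_cast le_top)) hs hg (hu.2.2.2 hα)

/-- Upper bound from linear functions -/
theorem up_lin (hn : 1 ≤ n) {α : ℝ} (hα : (n : ℝ) / 2 < -α) : bestConst n α ≤ -2 * α := by
  have hα1 : (n : ℝ) / 2 < 1 - α := by linarith
  have hn0 : (0 : ℝ) < n := by exact_mod_cast hn
  have i0 : Integrable fun x : En n => aw α ‖x‖ := by
    have := J_int hα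
    simpa only [neg_neg] using this
  have i1 : Integrable fun x : En n => aw (α - 1) ‖x‖ := by
    have := J_int hα1
    simpa only [neg_sub] using this
  have ha : ∀ x : En n, aw α ‖x‖ = aw (α - 1) ‖x‖ * (1 + ‖x‖ ^ 2) := by
    intro x
    rw [← aw_succ]; congr 1; ring
  have hco : ∀ (x : En n) (i : Fin n), |x i| ≤ ‖x‖ := by
    intro x i
    have := PiLp.norm_apply_le x i
    simpa using this
  have iM : ∀ i : Fin n, Integrable fun x : En n => aw (α - 1) ‖x‖ * (x i) ^ 2 := by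
    intro i
    refine i0.mono' ?_ (Eventually.of_forall fun x => ?_)
    · exact ((awn_cont (α - 1)).mul ((by fun_prop : Continuous fun x : En n => x i).pow
        2)).aestronglyMeasurable
    · have h1 := awn_pos (α - 1) x
      rw [Real.norm_of_nonneg (by positivity), ha]
      have h2 : (x i) ^ 2 ≤ ‖x‖ ^ 2 := by
        rw [← sq_abs]
        exact pow_le_pow_left₀ (abs_nonneg _) (hco x i) 2
      nlinarith
  have key : ∀ i : Fin n, bestConst n α * ∫ x : En n, aw (α - 1) ‖x‖ * (x i) ^ 2 ≤ JJ n (-α) := by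
    intro i
    have hfd : ∀ x : En n, fderiv ℝ (fun x : En n => x i) x = EuclideanSpace.proj (𝕜 := ℝ) i :=
      fun x => (EuclideanSpace.proj (𝕜 := ℝ) i : En n →L[ℝ] ℝ).fderiv
    have hno : ‖(EuclideanSpace.proj (𝕜 := ℝ) i : En n →L[ℝ] ℝ)‖ ≤ 1 := by
      refine ContinuousLinearMap.opNorm_le_bound _ zero_le_one fun x => ?_
      rw [one_mul, Real.norm_eq_abs]
      exact hco x i
    have hn2 : ‖(EuclideanSpace.proj (𝕜 := ℝ) i : En n →L[ℝ] ℝ)‖ ^ 2 ≤ 1 :=
      pow_le_one₀ (norm_nonneg _) hno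
    have iL : Integrable fun x : En n => aw (α - 1) ‖x‖ * x i := by
      refine (i1.add (iM i)).mono' ?_ (Eventually.of_forall fun x => ?_)
      · exact ((awn_cont (α - 1)).mul
          (by fun_prop : Continuous fun x : En n => x i)).aestronglyMeasurable
      · have h1 := awn_pos (α - 1) x
        show _ ≤ aw (α - 1) ‖x‖ + aw (α - 1) ‖x‖ * (x i) ^ 2
        rw [norm_mul, Real.norm_of_nonneg h1.le, Real.norm_eq_abs]
        have h2 : |x i| ≤ 1 + (x i) ^ 2 := by
          rw [← sq_abs (x i)]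
          nlinarith [sq_nonneg (|x i| - 1), abs_nonneg (x i)]
        nlinarith
    have h0 : ∫ x : En n, aw (α - 1) ‖x‖ * x i = 0 := by
      have h := integral_neg_eq_self (fun x : En n => aw (α - 1) ‖x‖ * x i) volume
      have h2 : ∀ x : En n, aw (α - 1) ‖-x‖ * (-x) i = -(aw (α - 1) ‖x‖ * x i) := by
        intro x
        rw [norm_neg]
        simp
      simp only [h2] at h
      rw [integral_neg] at h
      linarith
    have h := up_con (n := n) (α := α) best_con (ψ := fun x : En n => x i)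
      (EuclideanSpace.proj (𝕜 := ℝ) i).contDiff i1 iL h0 (iM i) (by
        simp only [hfd]
        exact i0.mul_const _)
    simp only [hfd] at h
    refine h.trans ?_
    rw [integral_mul_const]
    have e : JJ n (-α) = ∫ x : En n, aw α ‖x‖ := by
      unfold JJ
      simp only [neg_neg]
    rw [e]
    have hp : 0 ≤ ∫ x : En n, aw α ‖x‖ := integral_nonneg fun x => (awn_pos _ _).le
    nlinarith
  have hsum := Finset.sum_le_sum fun i (_ : i ∈ Finset.univ) => key i
  rw [← Finset.mul_sum, ← integral_finsetSum _ fun i _ => iM i, Finset.sum_const,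
    Finset.card_univ, Fintype.card_fin, nsmul_eq_mul] at hsum
  have e1 : ∫ x : En n, ∑ i, aw (α - 1) ‖x‖ * (x i) ^ 2 = JJ n (-α) - JJ n (-α + 1) := by
    have e2 : ∀ x : En n, ∑ i, aw (α - 1) ‖x‖ * (x i) ^ 2 = aw α ‖x‖ - aw (α - 1) ‖x‖ := by
      intro x
      rw [← Finset.mul_sum, ← EuclideanSpace.real_norm_sq_eq, ha]
      ring
    simp only [e2]
    rw [integral_sub i0 i1]
    unfold JJ
    simp only [neg_neg]
    congr 3
    funext x
    congr 1
    ring
  rw [e1] at hsum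
  have hr := J_rec hn hα
  have hJ := J_pos hα
  have hα0 : 0 < -α := by
    have : (0 : ℝ) ≤ (n : ℝ) / 2 := by positivity
    linarith
  -- C (J - J') ≤ n J, (-2α - n) J = -2α J'
  have h5 : bestConst n α * ((n : ℝ) * JJ n (-α)) ≤ (-2 * α) * ((n : ℝ) * JJ n (-α)) := by
    have h6 : 2 * (-α) * (JJ n (-α) - JJ n (-α + 1)) = n * JJ n (-α) := by linarith
    calc bestConst n α * ((n : ℝ) * JJ n (-α))
        = 2 * (-α) * (bestConst n α * (JJ n (-α) - JJ n (-α + 1))) := by rw [← h6]; ring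
      _ ≤ 2 * (-α) * ((n : ℝ) * JJ n (-α)) := by gcongr
      _ = _ := by ring
  exact le_of_mul_le_mul_right h5 (by positivity)

/-- Upper bound near the critical decay, unconstrained -/
theorem up_ess_free {α : ℝ} (hα : -(((n : ℝ) - 2) / 2) ≤ α) :
    bestConst n α ≤ ((n : ℝ) + 2 * α - 2) ^ 2 / 4 := by
  set s0 : ℝ := ((n : ℝ) + 2 * α - 2) / 4 with hs0
  have hlim : Tendsto (fun s : ℝ => 4 * s ^ 2) (𝓝[>] s0) (𝓝 (4 * s0 ^ 2)) :=
    ((by fun_prop : Continuous fun s : ℝ => 4 * s ^ 2).tendsto s0).mono_left nhdsWithin_le_nhds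
  have h : bestConst n α ≤ 4 * s0 ^ 2 := by
    refine ge_of_tendsto hlim (eventually_nhdsWithin_of_forall fun s hs => ?_)
    have hs' : s0 < s := hs
    have h1 : (n : ℝ) / 2 < 2 * s + 1 - α := by
      rw [hs0] at hs'
      linarith
    have h2 := famA (best_free hα) h1
    have h3 := J_pos h1
    have h4 := J_pos (n := n) (p := 2 * s + 2 - α) (by linarith)
    have h5 : bestConst n α * JJ n (2 * s + 1 - α) ≤ 4 * s ^ 2 * JJ n (2 * s + 1 - α) := by
      nlinarith [sq_nonneg s]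
    exact le_of_mul_le_mul_right h5 h3
  refine h.trans (le_of_eq ?_)
  rw [hs0]
  ring

/-- Upper bound for large `α` -/
theorem up_large (hn : 1 ≤ n) {α : ℝ} (hα : ((n : ℝ) + 2) / 2 < α) :
    bestConst n α ≤ 2 * n * (α - 1) := by
  have hn0 : (1 : ℝ) ≤ n := by exact_mod_cast hn
  have e1 : 2 * (α - 1) + 1 - α = α - 1 := by ring
  have e2 : 2 * (α - 1) + 2 - α = α - 1 + 1 := by ring
  have h2 := famA (n := n) (α := α) (s := α - 1) (best_free (by linarith)) (by linarith)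
  rw [e1, e2] at h2
  have hp : (n : ℝ) / 2 < α - 1 := by linarith
  have hr := J_rec hn hp
  have hJ := J_pos hp
  have hα0 : 0 < α - 1 := by linarith
  have h6 : 2 * (α - 1) * (JJ n (α - 1) - JJ n (α - 1 + 1)) = n * JJ n (α - 1) := by linarith
  have h5 : bestConst n α * JJ n (α - 1) ≤ 2 * n * (α - 1) * JJ n (α - 1) := by
    calc bestConst n α * JJ n (α - 1) ≤ 4 * (α - 1) ^ 2 * (JJ n (α - 1) - JJ n (α - 1 + 1)) := h2
      _ = 2 * (α - 1) * (2 * (α - 1) * (JJ n (α - 1) - JJ n (α - 1 + 1))) := by ring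
      _ = _ := by rw [h6]; ring
  exact le_of_mul_le_mul_right h5 hJ

/-- Upper bound from the quadratic function -/
theorem up_quad (hn : 1 ≤ n) {α : ℝ} (hα : α < -(((n : ℝ) + 2) / 2)) :
    bestConst n α ≤ -4 * α - 2 * n := by
  have hn0 : (1 : ℝ) ≤ n := by exact_mod_cast hn
  have e1 : 2 * (-1 : ℝ) + 1 - α = -1 - α := by ring
  have e2 : 2 * (-1 : ℝ) + 2 - α = -1 - α + 1 := by ring
  have e3 : (-1 : ℝ) + 1 - α = -1 - α + 1 := by ring
  have e4 : 1 - α = -1 - α + 1 + 1 := by ring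
  have h2 := famB (n := n) (α := α) (s := -1) best_con (by linarith) (by linarith) (by linarith)
  rw [e1, e2, e3, e4] at h2
  have hp : (n : ℝ) / 2 < -1 - α := by linarith
  have hp1 : (n : ℝ) / 2 < -1 - α + 1 := by linarith
  have hp2 : (n : ℝ) / 2 < -1 - α + 1 + 1 := by linarith
  have r1 := J_rec hn hp
  have r2 := J_rec hn hp1
  have J0 := J_pos hp
  have J1 := J_pos hp1
  have J2 := J_pos hp2
  set a := JJ n (-1 - α) with ha
  set b := JJ n (-1 - α + 1) with hb
  set c := JJ n (-1 - α + 1 + 1) with hc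
  set p : ℝ := -1 - α with hpp
  have hp0 : 0 < p := by linarith
  have hb' : b = (2 * p - n) * a / (2 * p) := by
    rw [eq_div_iff (by positivity)]
    linarith
  have hc' : c = (2 * (p + 1) - n) * b / (2 * (p + 1)) := by
    rw [eq_div_iff (by positivity)]
    linarith
  have q1 : 0 < 2 * p - n := by linarith
  have q2 : 0 < 2 * (p + 1) - n := by linarith
  have hα' : -4 * α - 2 * n = 4 * (p + 1) - 2 * n := by rw [hpp]; ring
  rw [hα']
  have k1 : a - b ^ 2 / c = a * n / (p * (2 * (p + 1) - n)) := by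
    rw [hc', hb']
    field_simp
    ring
  have k2 : 4 * (-1 : ℝ) ^ 2 * (a - b) = a * n / (p * (2 * (p + 1) - n)) *
      (4 * (p + 1) - 2 * n) := by
    rw [hb']
    field_simp
    ring
  rw [k1, k2] at h2
  have k3 : 0 < a * n / (p * (2 * (p + 1) - n)) := by positivity
  rw [mul_comm (bestConst n α)] at h2
  exact le_of_mul_le_mul_left h2 k3

/-- Upper bound near the critical decay, constrained -/
theorem up_ess_con (hn : 3 ≤ n) {α : ℝ} (hα : α < -(((n : ℝ) - 2) / 2))
    (hC : 0 ≤ bestConst n α) :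
    bestConst n α ≤ ((n : ℝ) + 2 * α - 2) ^ 2 / 4 := by
  have hn0 : (3 : ℝ) ≤ n := by exact_mod_cast hn
  set s0 : ℝ := ((n : ℝ) + 2 * α - 2) / 4 with hs0
  have h1 : (n : ℝ) / 2 < 1 - α := by linarith
  have h2 : (n : ℝ) / 2 < s0 + 1 - α := by rw [hs0]; linarith
  have J1 := J_pos h1
  set b0 : ℝ := JJ n (s0 + 1 - α) ^ 2 / JJ n (1 - α) with hb0
  set K : ℝ := n * JJ n ((n : ℝ) / 2 + 2) with hK
  have hKpos : 0 < K := by
    have := J_pos (n := n) (p := (n : ℝ) / 2 + 2) (by linarith)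
    positivity
  have hb0n : 0 ≤ b0 := by positivity
  have key : ∀ t : ℝ, 0 < t → t ≤ 1 / 2 →
      bestConst n α * (1 - 4 * t * b0 / K) ≤ 4 * (s0 + t) ^ 2 := by
    intro t ht ht1
    have h3 : (n : ℝ) / 2 < 2 * (s0 + t) + 1 - α := by rw [hs0]; linarith
    have h3' : 2 * (s0 + t) + 1 - α = (n : ℝ) / 2 + 2 * t := by rw [hs0]; ring
    have h5 := famB (n := n) (α := α) (s := s0 + t) best_con h1 (by linarith) h3
    have J3 := J_pos h3
    have J4 := J_pos (n := n) (p := 2 * (s0 + t) + 2 - α) (by linarith)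
    have J2p := J_pos (n := n) (p := s0 + t + 1 - α) (by linarith)
    set J := JJ n (2 * (s0 + t) + 1 - α) with hJ
    have hb : JJ n (s0 + t + 1 - α) ^ 2 / JJ n (1 - α) ≤ b0 := by
      rw [hb0]
      have := J_anti (n := n) (p := s0 + 1 - α) (q := s0 + t + 1 - α) h2 (by linarith)
      gcongr
    have hJK : K ≤ 4 * t * J := by
      have hr := J_rec (n := n) (by omega) h3
      have e1 : 2 * (2 * (s0 + t) + 1 - α) - n = 4 * t := by rw [h3']; ring
      rw [e1] at hr
      rw [hr, hK]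
      have h6 := J_anti (n := n) (p := 2 * (s0 + t) + 1 - α + 1) (q := (n : ℝ) / 2 + 2)
        (by linarith) (by rw [h3']; linarith)
      have h7 : (n : ℝ) ≤ 2 * (2 * (s0 + t) + 1 - α) := by rw [h3']; linarith
      have h8 := J_pos (n := n) (p := (n : ℝ) / 2 + 2) (by linarith)
      exact mul_le_mul h7 h6 h8.le (by linarith)
    have h9 : bestConst n α * (J - b0) ≤ 4 * (s0 + t) ^ 2 * J := by
      calc bestConst n α * (J - b0) ≤ bestConst n α *
            (J - JJ n (s0 + t + 1 - α) ^ 2 / JJ n (1 - α)) :=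
            mul_le_mul_of_nonneg_left (by linarith) hC
        _ ≤ 4 * (s0 + t) ^ 2 * (J - JJ n (2 * (s0 + t) + 2 - α)) := h5
        _ ≤ 4 * (s0 + t) ^ 2 * J := by
            have : J - JJ n (2 * (s0 + t) + 2 - α) ≤ J := by linarith
            gcongr
    have h10 : (1 - 4 * t * b0 / K) * J ≤ J - b0 := by
      have : b0 ≤ 4 * t * b0 / K * J := by
        rw [div_mul_eq_mul_div, le_div_iff₀ hKpos]
        nlinarith
      linarith
    have h11 : bestConst n α * (1 - 4 * t * b0 / K) * J ≤ 4 * (s0 + t) ^ 2 * J := by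
      calc bestConst n α * (1 - 4 * t * b0 / K) * J = bestConst n α *
            ((1 - 4 * t * b0 / K) * J) := by ring
        _ ≤ bestConst n α * (J - b0) := by gcongr
        _ ≤ _ := h9
    exact le_of_mul_le_mul_right h11 J3
  have hl1 : Tendsto (fun t : ℝ => bestConst n α * (1 - 4 * t * b0 / K)) (𝓝[>] 0)
      (𝓝 (bestConst n α * (1 - 4 * 0 * b0 / K))) :=
    ((by fun_prop : Continuous fun t : ℝ => bestConst n α * (1 - 4 * t * b0 / K)).tendsto
      0).mono_left nhdsWithin_le_nhds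
  have hl2 : Tendsto (fun t : ℝ => 4 * (s0 + t) ^ 2) (𝓝[>] 0) (𝓝 (4 * (s0 + 0) ^ 2)) :=
    ((by fun_prop : Continuous fun t : ℝ => 4 * (s0 + t) ^ 2).tendsto 0).mono_left
      nhdsWithin_le_nhds
  have h := le_of_tendsto_of_tendsto hl1 hl2 (by
    filter_upwards [Ioc_mem_nhdsGT (show (0 : ℝ) < 1 / 2 by norm_num)] with t ht
    exact key t ht.1 ht.2)
  have e1 : bestConst n α * (1 - 4 * 0 * b0 / K) = bestConst n α := by ring
  rw [e1] at h
  refine h.trans (le_of_eq ?_)
  rw [hs0]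
  ring

/-- The best constant. -/
theorem best_value (n : ℕ) (hn : 3 ≤ n) (α : ℝ) (hα : α ≠ -((n - 2) / 2)) :
    (((n : ℝ) + 2) / 2 ≤ α → bestConst n α = 2 * n * (α - 1)) ∧
    (-(((n : ℝ) + 2) / 2) ≤ α → α ≤ ((n : ℝ) + 2) / 2 →
      bestConst n α = ((n : ℝ) + 2 * α - 2) ^ 2 / 4) ∧
    (-(n : ℝ) ≤ α → α ≤ -(((n : ℝ) + 2) / 2) → bestConst n α = -4 * α - 2 * n) ∧
    (α ≤ -(n : ℝ) → bestConst n α = -2 * α) := by
  obtain ⟨k, rfl⟩ : ∃ k, n = k + 3 := ⟨n - 3, by omega⟩
  have hk : (0 : ℝ) ≤ k := Nat.cast_nonneg _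
  have hcast : ((k + 3 : ℕ) : ℝ) = k + 3 := by push_cast; ring
  have hmid : -((((k + 3 : ℕ) : ℝ) + 2) / 2) ≤ α → α ≤ (((k + 3 : ℕ) : ℝ) + 2) / 2 →
      bestConst (k + 3) α = (((k + 3 : ℕ) : ℝ) + 2 * α - 2) ^ 2 / 4 := by
    intro h1 h2
    rcases lt_or_gt_of_ne hα with h | h
    · have hl : (((k + 3 : ℕ) : ℝ) + 2 * α - 2) ^ 2 / 4 ≤ bestConst (k + 3) α := by
        rw [hcast] at h h1 h2 ⊢
        refine low_con (B := (k + 1 + 2 * α) / 2) (by rw [hcast]; exact h) (by positivity)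
          ?_ ?_ ?_
        · nlinarith
        · nlinarith
        · nlinarith
      exact le_antisymm (up_ess_con hn h (le_trans (by positivity) hl)) hl
    · refine le_antisymm (up_ess_free h.le) ?_
      rw [hcast] at h h1 h2 ⊢
      refine low_free (s := (k + 1 + 2 * α) / 4) ?_ ?_
      · nlinarith
      · nlinarith
  refine ⟨?_, hmid, ?_, ?_⟩
  · intro h
    rcases h.eq_or_lt with h | h
    · rw [hmid (by rw [← h, hcast]; linarith) h.ge, ← h]
      ring
    · refine le_antisymm (up_large (by omega) h) ?_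
      rw [hcast] at h ⊢
      refine low_free (s := α - 1) ?_ ?_
      · nlinarith
      · nlinarith
  · intro h1 h2
    rcases h2.eq_or_lt with h | h
    · rw [hmid h.ge (by rw [h, hcast]; linarith), h]
      ring
    · refine le_antisymm (up_quad (by omega) h) ?_
      rw [hcast] at h h1 ⊢
      refine low_con (B := (k + 3) + 2 * α) (by rw [hcast]; linarith) (by linarith) ?_ ?_ ?_
      · nlinarith
      · nlinarith
      · linarith
  · intro h
    refine le_antisymm (up_lin (by omega) (by rw [hcast] at h ⊢; linarith)) ?_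
    rw [hcast] at h
    refine low_con (B := (k + 3) + 2 * α) (by rw [hcast]; linarith) (by linarith) ?_ ?_ le_rfl
    · nlinarith
    · nlinarith

end Pool.Agent.K6.H36.WH
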