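import Pool.Agent.K6.H36.WH.One

/-!
# Weighted Hardy inequality: the radial mean zero part
-/

set_option autoImplicit false

open MeasureTheory Set Filter Topology

namespace Pool.Agent.K6.H36.WH

/-- Inequality for radial functions with mean zero -/
theorem rad {k : ℕ} {α lam B R : ℝ} (hR : 0 ≤ R) (hlam : 0 ≤ lam)
    (h1 : lam ≤ (k + 3) ^ 2 + 2 * (k + 3) * α - (k + 5) * B)
    (h2 : lam ≤ B * (k + 1 + 2 * α - B)) {S S' : ℝ → ℝ}
    (hS : ∀ r, HasDerivAt S (S' r) r) (hS' : Continuous S') (hSR : S R = 0)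
    (hG : ∫ r in (0 : ℝ)..R, aw (α - 1) r * r ^ (k + 2) * S r = 0) :
    0 ≤ ∫ r in (0 : ℝ)..R, (aw α r * r ^ (k + 2) * S' r ^ 2 -
      lam * aw (α - 1) r * r ^ (k + 2) * S r ^ 2) := by
  have hSc : Continuous S := continuous_iff_continuousAt.2 fun r => (hS r).continuousAt
  have hwc : Continuous fun r => aw (α - 1) r * r ^ (k + 2) * S r :=
    ((aw_cont _).mul (continuous_pow _)).mul hSc
  set G : ℝ → ℝ := fun r => ∫ t in (0 : ℝ)..r, aw (α - 1) t * t ^ (k + 2) * S t with hGdef
  have hGd : ∀ r, HasDerivAt G (aw (α - 1) r * r ^ (k + 2) * S r) r := fun r =>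
    intervalIntegral.integral_hasDerivAt_right (hwc.intervalIntegrable _ _)
      (hwc.stronglyMeasurableAtFilter _ _) hwc.continuousAt
  have hGc : Continuous G := continuous_iff_continuousAt.2 fun r => (hGd r).continuousAt
  have hG0 : G 0 = 0 := by simp [hGdef]
  have hGR : G R = 0 := hG
  set T : ℝ → ℝ := fun r => G r / r ^ (k + 2) with hTdef
  have hT0 : T 0 = 0 := by simp [hTdef, hG0]
  have hTR : T R = 0 := by simp [hTdef, hGR]
  -- bound for `T`
  obtain ⟨M, hM⟩ : ∃ M, ∀ r ∈ Icc 0 R, |aw (α - 1) r * S r| ≤ M := by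
    obtain ⟨M, hM⟩ := (isCompact_Icc (a := (0 : ℝ)) (b := R)).exists_bound_of_continuousOn
      (((aw_cont (α - 1)).mul hSc).continuousOn)
    exact ⟨M, fun r hr => hM r hr⟩
  have hTb : ∀ r ∈ Icc 0 R, |T r| ≤ M * r := by
    intro r hr
    rcases hr.1.eq_or_lt with h | h
    · rw [← h]; simp [hT0]
    · have hb : ‖G r‖ ≤ (M * r ^ (k + 2)) * |r - 0| := by
        refine intervalIntegral.norm_integral_le_of_norm_le_const fun t ht => ?_
        rw [uIoc_of_le hr.1] at ht
        have ht' : t ∈ Icc 0 R := ⟨ht.1.le, ht.2.trans hr.2⟩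
        have h3 := hM t ht'
        have h4 : t ^ (k + 2) ≤ r ^ (k + 2) := pow_le_pow_left₀ ht.1.le ht.2 _
        have h5 : 0 ≤ t ^ (k + 2) := by have := ht.1.le; positivity
        have h6 : 0 ≤ M := (abs_nonneg _).trans h3
        calc ‖aw (α - 1) t * t ^ (k + 2) * S t‖ = |aw (α - 1) t * S t| * t ^ (k + 2) := by
              rw [Real.norm_eq_abs, ← abs_of_nonneg h5, ← abs_mul, abs_of_nonneg h5]
              congr 1; ring
          _ ≤ M * t ^ (k + 2) := by gcongr
          _ ≤ M * r ^ (k + 2) := by gcongr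
      rw [sub_zero, abs_of_pos h, Real.norm_eq_abs] at hb
      rw [hTdef]
      simp only
      rw [abs_div, abs_of_pos (by positivity : 0 < r ^ (k + 2)), div_le_iff₀ (by positivity)]
      linarith
  have hTc : ContinuousOn T (Icc 0 R) := by
    intro r hr
    rcases hr.1.eq_or_lt with h | h
    · rw [← h]
      have : Tendsto T (𝓝[Icc 0 R] 0) (𝓝 0) := by
        refine squeeze_zero_norm' (a := fun r => M * r) ?_ ?_
        · exact eventually_nhdsWithin_of_forall fun t ht => hTb t ht
        · have : Tendsto (fun r : ℝ => M * r) (𝓝 0) (𝓝 (M * 0)) :=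
            (continuous_const.mul continuous_id).tendsto 0
          rw [mul_zero] at this
          exact this.mono_left nhdsWithin_le_nhds
      rw [ContinuousWithinAt, hT0]
      exact this
    · exact ((hGc.continuousAt).div ((continuous_pow _).continuousAt)
        (by positivity)).continuousWithinAt
  have hTd : ∀ r ∈ Ioo 0 R, HasDerivAt T (aw (α - 1) r * S r - (k + 2) * T r / r) r := by
    intro r hr
    have hr0 : 0 < r := hr.1
    refine ((hGd r).fun_div (hasDerivAt_pow (k + 2) r) (by positivity)).congr_deriv ?_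
    rw [hTdef]
    simp only
    push_cast
    field_simp
    ring
  refine fund hR (K := fun r => lam * (aw (-α) r * ((k + 3) + B * r ^ 2) * T r ^ 2 * r ^ (k + 1) -
      2 * (G r * S r)))
    (K' := fun r => lam * ((((2 * (-α) * r * aw (-α - 1) r) * ((k + 3) + B * r ^ 2) +
      aw (-α) r * (B * (2 * r))) * T r ^ 2 + aw (-α) r * ((k + 3) + B * r ^ 2) *
      (2 * T r * (aw (α - 1) r * S r - (k + 2) * T r / r))) * r ^ (k + 1) +
      aw (-α) r * ((k + 3) + B * r ^ 2) * T r ^ 2 * ((k + 1) * r ^ k) -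
      2 * (aw (α - 1) r * r ^ (k + 2) * S r * S r + G r * S' r))) ?_ ?_ ?_ ?_
      (by simp [hT0, hG0]) (by simp [hTR, hSR])
  · exact continuousOn_const.mul (((((aw_cont _).continuousOn.mul (by fun_prop)).mul
      (hTc.pow 2)).mul (continuous_pow _).continuousOn).sub
      (continuousOn_const.mul (hGc.mul hSc).continuousOn))
  · intro r hr
    have e0 : HasDerivAt (fun r : ℝ => ((k : ℝ) + 3) + B * r ^ 2) (B * (2 * r)) r := by
      refine (((hasDerivAt_pow 2 r).const_mul B).const_add _).congr_deriv ?_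
      simp
    refine ((((((aw_deriv (-α) r).fun_mul e0).fun_mul ((hTd r hr).fun_pow 2)).fun_mul
      (hasDerivAt_pow (k + 1) r)).fun_sub (((hGd r).fun_mul (hS r)).const_mul 2)).const_mul
      lam).congr_deriv ?_
    simp
  · exact ((((aw_cont _).mul (continuous_pow _)).mul (hS'.pow 2))).sub
      (((continuous_const.mul (aw_cont _)).mul (continuous_pow _)).mul (hSc.pow 2))
  · intro r hr
    have hr0 : 0 < r := hr.1
    have ha : (0 : ℝ) < 1 + r ^ 2 := by positivity
    have hz := aw_pos α r
    have e1 : aw (α - 1) r = aw α r / (1 + r ^ 2) := by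
      rw [eq_div_iff ha.ne', ← aw_succ]; congr 1; ring
    have e2 : aw (-α) r = 1 / aw α r := by
      unfold aw
      rw [Real.rpow_neg (by positivity), one_div]
    have e3 : aw (-α - 1) r = 1 / (aw α r * (1 + r ^ 2)) := by
      have : aw (-α) r = aw (-α - 1) r * (1 + r ^ 2) := by
        rw [← aw_succ]; congr 1; ring
      rw [e2] at this
      rw [eq_div_iff (by positivity)]
      rw [div_eq_iff hz.ne'] at this
      linarith
    have e4 : G r = T r * r ^ (k + 2) := by
      rw [hTdef]
      simp only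
      field_simp
    rw [e4, e1, e2, e3]
    set z := aw α r with hzdef
    have key : 0 ≤ r ^ (k + 2) * (z * S' r + lam * T r) ^ 2 / z + lam * r ^ k *
        (((k + 3) + B * r ^ 2) * T r - z * r * S r) ^ 2 / (z * (1 + r ^ 2)) +
        lam * (((k + 3) ^ 2 + 2 * (k + 3) * α - (k + 5) * B - lam) +
        (B * (k + 1 + 2 * α - B) - lam) * r ^ 2) * r ^ (k + 2) * T r ^ 2 /
        (z * (1 + r ^ 2)) := by
      have : 0 ≤ (k + 3) ^ 2 + 2 * (k + 3) * α - (k + 5) * B - lam := by linarith
      have : 0 ≤ B * (k + 1 + 2 * α - B) - lam := by linarith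
      positivity
    rw [← sub_nonneg]
    refine key.trans (le_of_eq ?_)
    field_simp
    ring

end Pool.Agent.K6.H36.WH
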