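import Pool.Agent.Q94.NB.K13
import Pool.Agent.Q94.NB.K14
import Pool.Agent.Q94.NB.K17
import Pool.Agent.K6.H36.WH.Rad

/-!
# Weighted Hardy inequality: lower bounds
-/

set_option autoImplicit false

open MeasureTheory Set Filter Topology Metric
open scoped ENNReal

namespace Pool.Agent.K6.H36.WH

open Q94.NB Q94.NB.S98

/-- the product measure -/
noncomputable def PP (d : ℕ) (R : ℝ) : Measure (ℝ × sphere (0 : E d) 1) :=
  (volume.restrict (Ioo (0 : ℝ) R)).prod (sg d)

instance sgfin (d : ℕ) : IsFiniteMeasure (sg d) := sg_fin d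

instance ppfin (d : ℕ) (R : ℝ) : IsFiniteMeasure (PP d R) := by
  unfold PP
  infer_instance

lemma cint {d : ℕ} {R : ℝ} {f : ℝ × sphere (0 : E d) 1 → ℝ} (hf : Continuous f) :
    Integrable f (PP d R) := by
  obtain ⟨C, hC⟩ := ((isCompact_Icc (a := (0 : ℝ)) (b := R)).prod
    (isCompact_univ (X := sphere (0 : E d) 1))).exists_bound_of_continuousOn hf.continuousOn
  refine (integrable_const C).mono' hf.aestronglyMeasurable ?_
  have aeI : ∀ᵐ z ∂(PP d R), z.1 ∈ Ioo (0 : ℝ) R :=
    Measure.quasiMeasurePreserving_fst.ae (ae_restrict_mem measurableSet_Ioo)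
  filter_upwards [aeI] with z hz
  exact hC z ⟨⟨hz.1.le, hz.2.le⟩, mem_univ _⟩

lemma toI {R : ℝ} (hR : 0 ≤ R) (f : ℝ → ℝ) :
    ∫ r, f r ∂(volume.restrict (Ioo (0 : ℝ) R)) = ∫ r in (0 : ℝ)..R, f r := by
  rw [intervalIntegral.integral_of_le hR, integral_Ioc_eq_integral_Ioo]

lemma fubL {d : ℕ} {R : ℝ} (hR : 0 ≤ R) {f : ℝ × sphere (0 : E d) 1 → ℝ} (hf : Continuous f) :
    ∫ z, f z ∂(PP d R) = ∫ r in (0 : ℝ)..R, ∫ θ, f (r, θ) ∂(sg d) := by
  have h := cint (R := R) hf
  unfold PP at h ⊢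
  rw [integral_prod _ h, toI hR]

lemma fubR {d : ℕ} {R : ℝ} (hR : 0 ≤ R) {f : ℝ × sphere (0 : E d) 1 → ℝ} (hf : Continuous f) :
    ∫ z, f z ∂(PP d R) = ∫ θ, (∫ r in (0 : ℝ)..R, f (r, θ)) ∂(sg d) := by
  have h := cint (R := R) hf
  unfold PP at h ⊢
  rw [integral_prod_symm _ h]
  refine integral_congr_ae (Eventually.of_forall fun θ => ?_)
  exact toI hR _

/-- polar coordinates, nonnegative functions -/
lemma polN {d : ℕ} (hd : 1 ≤ d) {R : ℝ} {G : E d → ℝ} (hG : Measurable G)
    (h0 : ∀ x, 0 ≤ G x) (hs : ∀ x, R ≤ ‖x‖ → G x = 0) :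
    ∫ x, G x = ∫ z, z.1 ^ (d - 1) * G (z.1 • (z.2 : E d)) ∂(PP d R) := by
  rw [integral_eq_lintegral_of_nonneg_ae (Eventually.of_forall h0) hG.aestronglyMeasurable,
    polar hd _ hG.ennreal_ofReal]
  have hm : Measurable (fun z : ℝ × sphere (0 : E d) 1 => G (z.1 • (z.2 : E d))) :=
    hG.comp (by fun_prop)
  have hm2 : Measurable (fun z : ℝ × sphere (0 : E d) 1 => z.1 ^ (d - 1) * G (z.1 • (z.2 : E d))) :=
    (measurable_fst.pow_const _).mul hm
  have hpos : ∀ᵐ z : ℝ × sphere (0 : E d) 1 ∂(PP d R), 0 < z.1 := by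
    have h1 : ∀ᵐ r : ℝ ∂(volume.restrict (Ioo (0 : ℝ) R)), 0 < r := by
      filter_upwards [ae_restrict_mem measurableSet_Ioo] with r hr
      exact hr.1
    exact Measure.quasiMeasurePreserving_fst.ae h1
  rw [integral_eq_lintegral_of_nonneg_ae ?_ hm2.aestronglyMeasurable]
  · unfold PP
    rw [lintegral_prod _ hm2.ennreal_ofReal.aemeasurable]
    congr 1
    have hres : ∫⁻ r in Ioi (0 : ℝ), ENNReal.ofReal (r ^ (d - 1)) *
        ∫⁻ θ, ENNReal.ofReal (G (r • (θ : E d))) ∂(sg d) =
        ∫⁻ r in Ioo (0 : ℝ) R, ENNReal.ofReal (r ^ (d - 1)) *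
        ∫⁻ θ, ENNReal.ofReal (G (r • (θ : E d))) ∂(sg d) := by
      rw [← lintegral_indicator measurableSet_Ioi, ← lintegral_indicator measurableSet_Ioo]
      refine lintegral_congr fun r => ?_
      by_cases h1 : 0 < r
      · by_cases h2 : r < R
        · rw [indicator_of_mem (show r ∈ Ioi (0 : ℝ) from h1),
            indicator_of_mem (show r ∈ Ioo (0 : ℝ) R from ⟨h1, h2⟩)]
        · rw [indicator_of_mem (show r ∈ Ioi (0 : ℝ) from h1),
            indicator_of_notMem (show r ∉ Ioo (0 : ℝ) R from fun h => h2 h.2)]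
          have : ∀ θ : sphere (0 : E d) 1, G (r • (θ : E d)) = 0 := by
            intro θ
            refine hs _ ?_
            rw [norm_smul, norm_sph, Real.norm_of_nonneg h1.le, mul_one]
            exact not_lt.1 h2
          simp [this]
      · rw [indicator_of_notMem (show r ∉ Ioi (0 : ℝ) from h1),
          indicator_of_notMem (show r ∉ Ioo (0 : ℝ) R from fun h => h1 h.1)]
    rw [hres]
    refine setLIntegral_congr_fun measurableSet_Ioo fun r hr => ?_
    show ENNReal.ofReal (r ^ (d - 1)) * ∫⁻ θ, ENNReal.ofReal (G (r • (θ : E d))) ∂(sg d)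
      = ∫⁻ θ, ENNReal.ofReal (r ^ (d - 1) * G (r • (θ : E d))) ∂(sg d)
    rw [← lintegral_const_mul _ (by
      have : Measurable fun θ : sphere (0 : E d) 1 => G (r • (θ : E d)) := hG.comp (by fun_prop)
      exact this.ennreal_ofReal)]
    refine lintegral_congr fun θ => ?_
    rw [ENNReal.ofReal_mul (pow_nonneg hr.1.le _)]
  · filter_upwards [hpos] with z hz
    exact mul_nonneg (pow_nonneg hz.le _) (h0 _)

/-- polar coordinates, continuous functions -/
lemma polC {d : ℕ} (hd : 1 ≤ d) {R : ℝ} {g : E d → ℝ} (hg : Continuous g)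
    (hs : ∀ x, R ≤ ‖x‖ → g x = 0) :
    ∫ x, g x = ∫ z, z.1 ^ (d - 1) * g (z.1 • (z.2 : E d)) ∂(PP d R) := by
  have hcs : HasCompactSupport g := by
    refine HasCompactSupport.intro (isCompact_closedBall (0 : E d) R) fun x hx => ?_
    rw [mem_closedBall, dist_zero_right, not_le] at hx
    exact hs x hx.le
  have c1 : Continuous fun x => max (g x) 0 := hg.max continuous_const
  have c2 : Continuous fun x => max (-g x) 0 := hg.neg.max continuous_const
  have s1 : HasCompactSupport fun x => max (g x) 0 := by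
    refine hcs.comp_left (g := fun t : ℝ => max t 0) (by simp)
  have s2 : HasCompactSupport fun x => max (-g x) 0 := by
    refine hcs.comp_left (g := fun t : ℝ => max (-t) 0) (by simp)
  have e1 := polN hd (R := R) c1.measurable (fun x => le_max_right _ _) (fun x hx => by
    simp [hs x hx])
  have e2 := polN hd (R := R) c2.measurable (fun x => le_max_right _ _) (fun x hx => by
    simp [hs x hx])
  have i1 := c1.integrable_of_hasCompactSupport (μ := volume) s1
  have i2 := c2.integrable_of_hasCompactSupport (μ := volume) s2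
  have hdec : ∀ t : ℝ, t = max t 0 - max (-t) 0 := by
    intro t
    rcases le_total 0 t with h | h
    · rw [max_eq_left h, max_eq_right (by linarith)]; ring
    · rw [max_eq_right h, max_eq_left (by linarith)]; ring
  have l : ∫ x, g x = (∫ x, max (g x) 0) - (∫ x, max (-g x) 0) := by
    rw [← integral_sub i1 i2]
    exact integral_congr_ae (Eventually.of_forall fun x => hdec _)
  have cz : Continuous fun z : ℝ × sphere (0 : E d) 1 => z.1 • (z.2 : E d) := by fun_prop
  have cp : Continuous fun z : ℝ × sphere (0 : E d) 1 => z.1 ^ (d - 1) := by fun_prop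
  have j1 : Integrable (fun z : ℝ × sphere (0 : E d) 1 => z.1 ^ (d - 1) *
      max (g (z.1 • (z.2 : E d))) 0) (PP d R) := cint (cp.mul (c1.comp cz))
  have j2 : Integrable (fun z : ℝ × sphere (0 : E d) 1 => z.1 ^ (d - 1) *
      max (-g (z.1 • (z.2 : E d))) 0) (PP d R) := cint (cp.mul (c2.comp cz))
  rw [l, e1, e2, ← integral_sub j1 j2]
  refine integral_congr_ae (Eventually.of_forall fun z => ?_)
  simp only
  rw [← mul_sub, ← hdec]

end Pool.Agent.K6.H36.WH
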