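import Mathlib

/-!
# Weighted Hardy inequality: one dimensional inequalities
-/

set_option autoImplicit false

open MeasureTheory Set Filter Topology

namespace Pool.Agent.K6.H36.WH

/-- weight -/
noncomputable def aw (p r : ℝ) : ℝ := (1 + r ^ 2) ^ p

lemma aw_pos (p r : ℝ) : 0 < aw p r := Real.rpow_pos_of_pos (by positivity) _

lemma aw_cont (p : ℝ) : Continuous (aw p) := by
  unfold aw
  refine Continuous.rpow_const (by fun_prop) fun x => Or.inl ?_
  positivity

lemma aw_succ (p r : ℝ) : aw (p + 1) r = aw p r * (1 + r ^ 2) := by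
  unfold aw
  rw [Real.rpow_add (by positivity), Real.rpow_one]

lemma aw_deriv (p r : ℝ) : HasDerivAt (aw p) (2 * p * r * aw (p - 1) r) r := by
  have h1 : HasDerivAt (fun r : ℝ => 1 + r ^ 2) (2 * r) r := by
    have := (hasDerivAt_pow 2 r).const_add 1
    simpa using this
  have h2 := h1.rpow_const (p := p) (Or.inl (by positivity))
  unfold aw
  convert h2 using 1
  ring

/-- fundamental comparison -/
lemma fund {R : ℝ} (hR : 0 ≤ R) {K K' g : ℝ → ℝ} (hK : ContinuousOn K (Icc 0 R))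
    (hK' : ∀ r ∈ Ioo 0 R, HasDerivAt K (K' r) r) (hg : Continuous g)
    (hle : ∀ r ∈ Ioo 0 R, K' r ≤ g r) (h0 : K 0 = 0) (h1 : K R = 0) :
    0 ≤ ∫ r in (0 : ℝ)..R, g r := by
  have := intervalIntegral.sub_le_integral_of_hasDeriv_right_of_le hR hK
    (fun x hx => (hK' x hx).hasDerivWithinAt) (hg.integrableOn_Icc) hle
  rw [h0, h1, sub_zero] at this
  exact this

/-- Hardy type inequality on a ray -/
theorem ray {k : ℕ} {α s lam R : ℝ} (hR : 0 ≤ R) (h1 : lam ≤ 2 * s * (k + 3))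
    (h2 : lam ≤ 2 * s * (k + 3) + 4 * s * (α - 1) - 4 * s ^ 2) {f f' : ℝ → ℝ}
    (hf : ∀ r, HasDerivAt f (f' r) r) (hf' : Continuous f') (hfR : f R = 0) :
    0 ≤ ∫ r in (0 : ℝ)..R, (aw α r * r ^ (k + 2) * f' r ^ 2 -
      lam * aw (α - 1) r * r ^ (k + 2) * f r ^ 2) := by
  have hfc : Continuous f := continuous_iff_continuousAt.2 fun r => (hf r).continuousAt
  refine fund hR (K := fun r => -(2 * s) * (r ^ (k + 3) * aw (α - 1) r * f r ^ 2))
    (K' := fun r => -(2 * s) * (((k + 3 : ℕ) * r ^ (k + 2) * aw (α - 1) r + r ^ (k + 3) *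
      (2 * (α - 1) * r * aw (α - 1 - 1) r)) * f r ^ 2 + r ^ (k + 3) * aw (α - 1) r *
      (2 * f r * f' r))) ?_ ?_ ?_ ?_ (by simp) (by simp [hfR])
  · exact (continuous_const.mul (((continuous_pow _).mul (aw_cont _)).mul
      (hfc.pow 2))).continuousOn
  · intro r _
    refine ((((hasDerivAt_pow (k + 3) r).fun_mul (aw_deriv (α - 1) r)).fun_mul
      ((hf r).fun_pow 2)).const_mul (-(2 * s))).congr_deriv ?_
    simp
  · exact ((((aw_cont _).mul (continuous_pow _)).mul (hf'.pow 2))).sub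
      (((continuous_const.mul (aw_cont _)).mul (continuous_pow _)).mul (hfc.pow 2))
  · intro r hr
    have e1 : aw (α - 1) r = aw (α - 1 - 1) r * (1 + r ^ 2) := by
      rw [← aw_succ]; congr 1; ring
    have e2 : aw α r = aw (α - 1 - 1) r * (1 + r ^ 2) * (1 + r ^ 2) := by
      rw [← e1, ← aw_succ]; congr 1; ring
    have hA := aw_pos (α - 1 - 1) r
    set A := aw (α - 1 - 1) r with hAdef
    rw [e2, e1]
    have hr0 : 0 < r := hr.1
    have key : 0 ≤ A * r ^ (k + 2) * (((1 + r ^ 2) * f' r + 2 * s * r * f r) ^ 2 +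
        ((2 * s * (k + 3) - lam) + r ^ 2 * (2 * s * (k + 3) + 4 * s * (α - 1) - 4 * s ^ 2 - lam)) *
        f r ^ 2) := by
      have : 0 ≤ 2 * s * (k + 3) - lam := by linarith
      have : 0 ≤ 2 * s * (k + 3) + 4 * s * (α - 1) - 4 * s ^ 2 - lam := by linarith
      positivity
    rw [← sub_nonneg]
    refine key.trans (le_of_eq ?_)
    push_cast
    ring

/-- Inequality for the oscillating part -/
theorem osc {k : ℕ} {α R : ℝ} (hR : 0 ≤ R) {f f' : ℝ → ℝ}
    (hf : ∀ r, HasDerivAt f (f' r) r) (hf' : Continuous f') (hfR : f R = 0) :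
    0 ≤ ∫ r in (0 : ℝ)..R, (aw α r * (r ^ (k + 2) * f' r ^ 2 + (k + 2) * r ^ k * f r ^ 2) +
      2 * α * aw (α - 1) r * r ^ (k + 2) * f r ^ 2) := by
  have hfc : Continuous f := continuous_iff_continuousAt.2 fun r => (hf r).continuousAt
  refine fund hR (K := fun r => r ^ (k + 1) * aw α r * f r ^ 2)
    (K' := fun r => (((k + 1 : ℕ) * r ^ k * aw α r + r ^ (k + 1) *
      (2 * α * r * aw (α - 1) r)) * f r ^ 2 + r ^ (k + 1) * aw α r *
      (2 * f r * f' r))) ?_ ?_ ?_ ?_ (by simp) (by simp [hfR])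
  · exact ((((continuous_pow _).mul (aw_cont _)).mul (hfc.pow 2))).continuousOn
  · intro r _
    refine (((hasDerivAt_pow (k + 1) r).fun_mul (aw_deriv α r)).fun_mul
      ((hf r).fun_pow 2)).congr_deriv ?_
    simp
  · exact ((aw_cont _).mul (((continuous_pow _).mul (hf'.pow 2)).add
      ((continuous_const.mul (continuous_pow _)).mul (hfc.pow 2)))).add
      (((continuous_const.mul (aw_cont _)).mul (continuous_pow _)).mul (hfc.pow 2))
  · intro r hr
    have hA := aw_pos α r
    have hr0 : 0 < r := hr.1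
    have key : 0 ≤ aw α r * r ^ k * (r * f' r - f r) ^ 2 := by positivity
    rw [← sub_nonneg]
    refine key.trans (le_of_eq ?_)
    push_cast
    ring

end Pool.Agent.K6.H36.WH
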